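import Pool.Agent.H83.LS.Targets2

/-!
Local smoothing for axially symmetric data: targets of wave 3 (reduction from `ℝ^(n+1)` to the plane).
-/

set_option autoImplicit false

namespace Pool.Agent.H83.LS

open MeasureTheory Set FourierTransform
open scoped ENNReal NNReal SchwartzMap

/-- Euclidean space -/
abbrev EE (d : ℕ) := EuclideanSpace ℝ (Fin d)

/-- kernel with symbol `m` -/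
noncomputable def MK {d : ℕ} (m : EE d → ℂ) (x : EE d) : ℂ := ∫ ξ : EE d, e (inner ℝ x ξ) * m ξ

/-- Fourier multiplier with symbol `m` -/
noncomputable def MM {d : ℕ} (m : EE d → ℂ) (f : EE d → ℂ) (x : EE d) : ℂ :=
  ∫ ξ : EE d, e (inner ℝ x ξ) * (m ξ * 𝓕 f ξ)

/-- bounded, measurable, compactly supported (all dimensions) -/
def BCd {d : ℕ} (A : ℝ) (f : EE d → ℂ) : Prop :=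
  Measurable f ∧ (∀ x, ‖f x‖ ≤ A) ∧ ∃ R : ℝ, ∀ x, R < ‖x‖ → f x = 0

/-- distance to the `x_{n+1}` axis -/
noncomputable def hor {n : ℕ} (x : EE (n + 1)) : ℝ := Real.sqrt (‖x‖ ^ 2 - (x (Fin.last n)) ^ 2)

/-- axially symmetric functions: `f x` depends only on `‖x‖` and the last coordinate -/
def Axial {n : ℕ} (f : EE (n + 1) → ℂ) : Prop :=
  ∀ x y : EE (n + 1), x (Fin.last n) = y (Fin.last n) → ‖x‖ = ‖y‖ → f x = f y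

/-- the point `ρ e₀ + z e_n` -/
noncomputable def pt (n : ℕ) (ρ z : ℝ) : EE (n + 1) :=
  WithLp.toLp 2 (fun i => if i = 0 then ρ else if i = Fin.last n then z else 0)

/-- `ρ^((n-1)/2)` times the profile of `f` -/
noncomputable def FF (n : ℕ) (f : EE (n + 1) → ℂ) (y : ℝ × ℝ) : ℂ :=
  if 0 < y.1 then ((y.1 ^ (((n : ℝ) - 1) / 2) : ℝ) : ℂ) * f (pt n y.1 y.2) else 0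

/-- `j_m(y) = ∫_0^π cos(2πy cos φ) sin^{m-2} φ dφ` -/
noncomputable def jn (m : ℕ) (y : ℝ) : ℝ :=
  ∫ φ in (0 : ℝ)..Real.pi, Real.cos (2 * Real.pi * (y * Real.cos φ)) * Real.sin φ ^ (m - 2)

/-- `(ρσ)^((m-1)/2) j_m(ρσ)` -/
noncomputable def bj (m : ℕ) (y : ℝ) : ℝ := y ^ (((m : ℝ) - 1) / 2) * jn m y

/-- SPL: splitting of `ℝ^(n+1)` -/
def T_SPL : Prop := ∀ n : ℕ, ∃ Φ : EE n × ℝ ≃ᵐ EE (n + 1), MeasurePreserving Φ ∧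
  (∀ y z, (Φ (y, z)) (Fin.last n) = z) ∧
  (∀ (y y' : EE n) (z z' : ℝ), inner ℝ (Φ (y, z)) (Φ (y', z')) = inner ℝ y y' + z * z')

/-- RF: Fourier transform of radial functions -/
def T_RF : Prop := ∀ m : ℕ, 2 ≤ m → ∃ c : ℝ, 0 < c ∧
  (∀ h : ℝ → ℝ≥0∞, Measurable h → ∫⁻ x : EE m, h ‖x‖ =
    ENNReal.ofReal (c * ∫ φ in (0 : ℝ)..Real.pi, Real.sin φ ^ (m - 2)) *
      ∫⁻ ρ in Ioi (0 : ℝ), h ρ * ENNReal.ofReal (ρ ^ (m - 1))) ∧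
  (∀ (g : ℝ → ℂ) (ξ : EE m), Measurable g → Integrable (fun x : EE m => g ‖x‖) →
    ∫ x : EE m, e (inner ℝ x ξ) * g ‖x‖ =
      (c : ℂ) * ∫ ρ in Ioi (0 : ℝ), g ρ * ((ρ ^ (m - 1) * jn m (ρ * ‖ξ‖) : ℝ) : ℂ))

/-- POL: integration of axially symmetric functions -/
def T_POL : Prop := ∀ n : ℕ, 2 ≤ n → ∃ c : ℝ, 0 < c ∧ ∀ h : ℝ × ℝ → ℝ≥0∞, Measurable h →
  ∫⁻ x : EE (n + 1), h (hor x, x (Fin.last n)) =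
    ENNReal.ofReal c * ∫⁻ z : ℝ, ∫⁻ ρ in Ioi (0 : ℝ), h (ρ, z) * ENNReal.ofReal (ρ ^ (n - 1))

/-- ASY: oscillation of `j_m` at infinity -/
def T_ASY : Prop := ∀ m : ℕ, 2 ≤ m → ∃ a : ℝ → ℂ, ContDiffOn ℝ (⊤ : ℕ∞) a (Ioi 0) ∧
  (∀ y : ℝ, 0 < y → ((bj m y : ℝ) : ℂ) = e y * a y + (starRingEnd ℂ) (e y * a y)) ∧
  (∀ k : ℕ, ∃ C : ℝ, ∀ y : ℝ, 1 / 8 ≤ y → ‖iteratedDeriv k a y‖ * y ^ k ≤ C)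

/-- the transplantation kernel `∫_0^∞ e(xσ) χ(σ) (ρσ)^((m-1)/2) j_m(ρσ) dσ` -/
noncomputable def kp (m : ℕ) (χ : ℝ → ℂ) (x ρ : ℝ) : ℂ :=
  ∫ σ in Ioi (0 : ℝ), e (x * σ) * χ σ * ((bj m (ρ * σ) : ℝ) : ℂ)

/-- smooth function supported in `[1/8,8]` with derivatives up to order `M` bounded by `B` -/
def CB (M : ℕ) (B : ℝ) (χ : ℝ → ℂ) : Prop := ContDiff ℝ (⊤ : ℕ∞) χ ∧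
  (∀ σ, χ σ ≠ 0 → 1 / 8 ≤ σ ∧ σ ≤ 8) ∧ ∀ k ≤ M, ∀ σ, ‖iteratedDeriv k χ σ‖ ≤ B

/-- KAP: decay of the transplantation kernel -/
def T_KAP : Prop := ∀ m N : ℕ, 2 ≤ m → ∃ (M : ℕ) (C : ℝ), ∀ (χ : ℝ → ℂ) (B x ρ : ℝ),
  CB M B χ → 0 ≤ ρ →
  ‖kp m χ x ρ‖ ≤ C * B * (((1 + |x - ρ|) ^ N)⁻¹ + ((1 + |x + ρ|) ^ N)⁻¹)

/-- radial kernel `∫ e(x·ξ + t|ξ|) χ(|ξ|/λ) dξ` -/
noncomputable def rk {d : ℕ} (χ : ℝ → ℂ) (lam t : ℝ) (x : EE d) : ℂ :=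
  MK (fun ξ => e (t * ‖ξ‖) * χ (‖ξ‖ / lam)) x

/-- RADL: `L¹` norms of radial kernels -/
def T_RADL : Prop := ∀ d : ℕ, 2 ≤ d → ∃ (M : ℕ) (C : ℝ), ∀ (χ : ℝ → ℂ) (B lam t : ℝ),
  CB M B χ → 0 < lam → 0 ≤ t →
  (∫⁻ x : EE d, ‖rk χ lam t x‖ₑ ≤ ENNReal.ofReal (C * B * (1 + lam * t) ^ (((d : ℝ) - 1) / 2))) ∧
  (1 ≤ lam → t ≤ 2 → ∫⁻ x in {x : EE d | 4 ≤ ‖x‖}, ‖rk χ lam t x‖ₑ ≤ ENNReal.ofReal (C * B))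

/-- KBV: decay of kernels in `ℝ^d`, uniform over compact sets of parameters -/
def T_KBV : Prop := ∀ (d m : ℕ) (K O : Set (Fin m → ℝ)) (Ψ : (Fin m → ℝ) × EE d → ℂ) (R : ℝ),
  IsCompact K → IsOpen O → K ⊆ O → ContDiffOn ℝ (⊤ : ℕ∞) Ψ (O ×ˢ univ) →
  (∀ p ∈ O, ∀ ξ : EE d, R < ‖ξ‖ → Ψ (p, ξ) = 0) →
  ∀ N : ℕ, ∃ C : ℝ, ∀ p ∈ K, ∀ x : EE d, ‖MK (fun ξ => Ψ (p, ξ)) x‖ * (1 + ‖x‖) ^ N ≤ C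

/-- LOWX: the part `|ξ'| ≤ 2` -/
def T_LOWX : Prop := ∀ n : ℕ, 2 ≤ n → ∃ C : ℝ≥0, ∀ lam t : ℝ, 1 ≤ lam → t ∈ Icc (1 : ℝ) 2 →
  ∫⁻ x : EE (n + 1), ‖MK (fun ξ : EE (n + 1) => e (t * ‖ξ‖) *
    ((chi (‖ξ‖ / lam) * eta0 (hor ξ) : ℝ) : ℂ)) x‖ₑ ≤ C

/-- PLE: multipliers as convolutions and `L²` bound -/
def T_PLE : Prop := ∀ (d : ℕ) (m f : EE d → ℂ), Measurable m → (∀ ξ, ‖m ξ‖ ≤ 1) →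
  Integrable m → Integrable f → (∃ A : ℝ, ∀ x, ‖f x‖ ≤ A) → Measurable f →
  (∀ x, MM m f x = ∫ y, MK m (x - y) * f y) ∧ ∫⁻ x, ‖MM m f x‖ₑ ^ 2 ≤ ∫⁻ x, ‖f x‖ₑ ^ 2

/-- `PH F(σ,η) = ∫∫ e(-zη) F(ρ,z) (ρσ)^((n-1)/2) j_n(ρσ)` -/
noncomputable def PH (n : ℕ) (F : ℝ × ℝ → ℂ) (ζ : ℝ × ℝ) : ℂ :=
  ∫ y : ℝ × ℝ, e (-(y.2 * ζ.2)) * F y * ((bj n (y.1 * ζ.1) : ℝ) : ℂ)

/-- the profile evolution -/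
noncomputable def PU (n : ℕ) (lam Lam t : ℝ) (F : ℝ × ℝ → ℂ) (y : ℝ × ℝ) : ℂ :=
  ∫ ζ in {ζ : ℝ × ℝ | 0 < ζ.1}, e (y.2 * ζ.2 + t * Real.sqrt (ζ.1 ^ 2 + ζ.2 ^ 2)) *
    ((chi (Real.sqrt (ζ.1 ^ 2 + ζ.2 ^ 2) / lam) * chi (ζ.1 / Lam) * bj n (y.1 * ζ.1) : ℝ) : ℂ) *
    PH n F ζ

/-- RED1: from `ℝ^(n+1)` to profiles -/
def T_RED1 : Prop := ∀ n : ℕ, 2 ≤ n → ∃ c : ℝ, 0 < c ∧ ∀ (lam Lam t A : ℝ) (f : EE (n + 1) → ℂ),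
  0 < lam → 0 < Lam → Axial f → BCd A f → ∀ x : EE (n + 1),
  (((hor x) ^ (((n : ℝ) - 1) / 2) : ℝ) : ℂ) *
    MM (fun ξ : EE (n + 1) => e (t * ‖ξ‖) *
      ((chi (‖ξ‖ / lam) * chi (hor ξ / Lam) : ℝ) : ℂ)) f x =
    (c : ℂ) * PU n lam Lam t (FF n f) (hor x, x (Fin.last n))

/-- admissible profiles: bounded by `A`, supported in `ρ > 0`, bounded support -/
def PF (A : ℝ) (F : ℝ × ℝ → ℂ) : Prop :=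
  Measurable F ∧ (∀ y, ‖F y‖ ≤ A) ∧ (∀ y, F y ≠ 0 → 0 < y.1) ∧ ∃ R : ℝ, ∀ y, R < ‖y‖ → F y = 0

/-- `G = 𝒦 F` -/
noncomputable def GG (n : ℕ) (Lam : ℝ) (F : ℝ × ℝ → ℂ) (x : ℝ × ℝ) : ℂ :=
  ∫ ρ in Ioi (0 : ℝ), ((Lam : ℝ) : ℂ) * kp n (fun σ => ((chi σ : ℝ) : ℂ)) (Lam * x.1) (Lam * ρ) *
    F (ρ, x.2)

/-- RED2: from profiles to the plane -/
def T_RED2 : Prop := ∀ (n : ℕ) (lam Lam t A : ℝ) (F : ℝ × ℝ → ℂ), 2 ≤ n → 0 < lam → 0 < Lam →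
  PF A F → ∀ r z : ℝ, 0 < r →
  PU n lam Lam t F (r, z) = ∫ x₁ : ℝ, (starRingEnd ℂ) (((Lam : ℝ) : ℂ) *
    kp n (fun σ => ((chis σ : ℝ) : ℂ)) (Lam * x₁) (Lam * r)) * cv (KK t lam Lam) (GG n Lam F) (x₁, z)

/-- GB: bounds for `G` -/
def T_GB : Prop := ∀ n : ℕ, 2 ≤ n →
  (∃ C : ℝ, 0 ≤ C ∧ ∀ (Lam A : ℝ) (F : ℝ × ℝ → ℂ), 0 < Lam → PF A F →
    Measurable (GG n Lam F) ∧ Integrable (GG n Lam F) ∧ (∀ x, ‖GG n Lam F x‖ ≤ C * A) ∧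
    ∫⁻ x, ‖GG n Lam F x‖ₑ ^ 2 ≤ ENNReal.ofReal C * ∫⁻ y, ‖F y‖ₑ ^ 2) ∧
  (∀ N : ℕ, ∃ C : ℝ, 0 ≤ C ∧ ∀ (Lam A D : ℝ) (F : ℝ × ℝ → ℂ), 0 < Lam → 1 ≤ Lam * D → PF A F →
    (∀ y, F y ≠ 0 → D ≤ y.1) →
    (∀ x : ℝ × ℝ, |x.1| ≤ D / 2 → ‖GG n Lam F x‖ ≤ C * A / (Lam * D) ^ N) ∧
    ∫⁻ x in {x : ℝ × ℝ | |x.1| ≤ D / 2}, ‖GG n Lam F x‖ₑ ^ 2 ≤
      ENNReal.ofReal (C / (Lam * D) ^ N) * ∫⁻ y, ‖F y‖ₑ ^ 2)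

/-- WRED: weighted reduction -/
def T_WRED : Prop := ∀ p β : ℝ, 1 ≤ p → 0 ≤ β → β < 1 → ∃ C : ℝ≥0, ∀ (Lam : ℝ)
  (V : ℝ × ℝ → ℝ≥0∞), 0 < Lam → Measurable V →
  ∫⁻ z : ℝ, ∫⁻ r in Ioi (0 : ℝ), (∫⁻ x₁ : ℝ, ENNReal.ofReal
      (Lam * (((1 + |Lam * x₁ - Lam * r|) ^ 4)⁻¹ + ((1 + |Lam * x₁ + Lam * r|) ^ 4)⁻¹)) *
      V (x₁, z)) ^ p * ENNReal.ofReal (r ^ (-β)) ≤
    C * ∫⁻ x : ℝ × ℝ, V x ^ p * ENNReal.ofReal ((|x.1| + 1 / Lam) ^ (-β))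

/-- PC0: unweighted piece -/
def T_PC0 : Prop := ∀ (n : ℕ) (p η : ℝ), 2 ≤ n → 2 < p → p ≤ 3 → 0 < η → ∃ C : ℝ≥0,
  ∀ (lam Lam A : ℝ) (F : ℝ × ℝ → ℂ), 1 ≤ lam → 0 < Lam → Lam ≤ 4 * lam → PF A F →
  ∫⁻ t in Icc (1 : ℝ) 2, ∫⁻ z : ℝ, ∫⁻ r in Ioi (0 : ℝ), ‖PU n lam Lam t F (r, z)‖ₑ ^ p ≤
    C * ENNReal.ofReal (lam ^ η * A ^ (p - 2)) * ∫⁻ y, ‖F y‖ₑ ^ 2

/-- PC1: weighted piece, data in a shell `D ≤ ρ ≤ 2D` -/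
def T_PC1 : Prop := ∀ (n : ℕ) (p β η : ℝ), 2 ≤ n → 2 < p → p ≤ 3 → 0 ≤ β → β < 1 →
  β ≤ 2 - p / 2 → 0 < η → ∃ C : ℝ≥0,
  ∀ (lam Lam A D : ℝ) (F : ℝ × ℝ → ℂ), 1 ≤ lam → 1 ≤ Lam → Lam ≤ 4 * lam → 1 ≤ Lam * D →
  D ≤ 64 → PF A F → (∀ y, F y ≠ 0 → D ≤ y.1 ∧ y.1 ≤ 2 * D) →
  ∫⁻ t in Icc (1 : ℝ) 2, ∫⁻ z : ℝ, ∫⁻ r in Ioi (0 : ℝ),
      ‖PU n lam Lam t F (r, z)‖ₑ ^ p * ENNReal.ofReal (r ^ (-β)) ≤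
    C * ENNReal.ofReal (lam ^ η * D ^ (-β) * A ^ (p - 2)) * ∫⁻ y, ‖F y‖ₑ ^ 2

/-- PC2: weighted piece, data in `ρ ≤ 2/Λ` (any data) -/
def T_PC2 : Prop := ∀ (n : ℕ) (p β η : ℝ), 2 ≤ n → 2 < p → p ≤ 3 → 0 ≤ β → β < 1 → 0 < η →
  ∃ C : ℝ≥0, ∀ (lam Lam A : ℝ) (F : ℝ × ℝ → ℂ), 1 ≤ lam → 0 < Lam → Lam ≤ 4 * lam → PF A F →
  ∫⁻ t in Icc (1 : ℝ) 2, ∫⁻ z : ℝ, ∫⁻ r in Ioi (0 : ℝ),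
      ‖PU n lam Lam t F (r, z)‖ₑ ^ p * ENNReal.ofReal (r ^ (-β)) ≤
    C * ENNReal.ofReal (lam ^ η * Lam ^ β * A ^ (p - 2)) * ∫⁻ y, ‖F y‖ₑ ^ 2

/-- the symbol of the half wave operator at frequency `λ` -/
noncomputable def mT {d : ℕ} (lam t : ℝ) (ξ : EE d) : ℂ := e (t * ‖ξ‖) * ((chi (‖ξ‖ / lam) : ℝ) : ℂ)

/-- PIECE: the part `|ξ'| ~ Λ` for data near the axis (`i = 0`) or in a shell away from it -/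
def T_PIECE : Prop := ∀ (n : ℕ) (p η : ℝ), 2 ≤ n → 2 < p → p ≤ 2 + 2 / (n : ℝ) → 0 < η →
  ∃ C : ℝ≥0, ∀ (lam Lam A : ℝ) (f : EE (n + 1) → ℂ), 1 ≤ lam → 1 ≤ Lam → Lam ≤ 4 * lam →
  Axial f → BCd A f →
  ((∀ x, f x ≠ 0 → hor x ≤ 24) →
    ∫⁻ t in Icc (1 : ℝ) 2, ∫⁻ x, ‖MM (fun ξ : EE (n + 1) => e (t * ‖ξ‖) *
      ((chi (‖ξ‖ / lam) * chi (hor ξ / Lam) : ℝ) : ℂ)) f x‖ₑ ^ p ≤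
      C * ENNReal.ofReal (lam ^ η * A ^ (p - 2)) * ∫⁻ x, ‖f x‖ₑ ^ 2) ∧
  (∀ i : ℕ, 2 ≤ i → (∀ x, f x ≠ 0 → 8 * ((i : ℝ) - 1) ≤ hor x ∧ hor x ≤ 8 * ((i : ℝ) + 2)) →
    ∫⁻ t in Icc (1 : ℝ) 2, ∫⁻ x in {x : EE (n + 1) | 8 * (i : ℝ) ≤ hor x ∧
      hor x ≤ 8 * ((i : ℝ) + 1)}, ‖MM (fun ξ : EE (n + 1) => e (t * ‖ξ‖) *
      ((chi (‖ξ‖ / lam) * chi (hor ξ / Lam) : ℝ) : ℂ)) f x‖ₑ ^ p ≤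
      C * ENNReal.ofReal (lam ^ η * A ^ (p - 2)) * ∫⁻ x, ‖f x‖ₑ ^ 2)

/-- MAIN: restricted type estimate for axially symmetric functions -/
def T_MAIN : Prop := ∀ (n : ℕ) (p η : ℝ), 2 ≤ n → 2 < p → p ≤ 2 + 2 / (n : ℝ) → 0 < η →
  ∃ C : ℝ≥0, ∀ (lam A : ℝ) (f : EE (n + 1) → ℂ), 1 ≤ lam → Axial f → BCd A f →
  ∫⁻ t in Icc (1 : ℝ) 2, ∫⁻ x, ‖MM (mT lam t) f x‖ₑ ^ p ≤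
    C * ENNReal.ofReal (lam ^ η * A ^ (p - 2)) * ∫⁻ x, ‖f x‖ₑ ^ 2

/-- MARC: interpolation of sequences (Marcinkiewicz) -/
def T_MARC : Prop := ∀ q₁ p q₂ : ℝ, 1 ≤ q₁ → q₁ < p → p < q₂ → ∃ C : ℝ≥0,
  ∀ (Y : Type) [MeasurableSpace Y] (ν : Measure Y) (g : ℤ → Y → ℝ≥0∞) (m : ℤ → ℝ≥0∞) (B : ℝ≥0∞),
  (∀ l, Measurable (g l)) →
  (∀ l, ∫⁻ y, g l y ^ q₁ ∂ν ≤ B * ENNReal.ofReal ((2 : ℝ) ^ ((l : ℝ) * q₁)) * m l) →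
  (∀ l, ∫⁻ y, g l y ^ q₂ ∂ν ≤ B * ENNReal.ofReal ((2 : ℝ) ^ ((l : ℝ) * q₂)) * m l) →
  ∫⁻ y, (∑' l, g l y) ^ p ∂ν ≤
    C * B * ∑' l : ℤ, ENNReal.ofReal ((2 : ℝ) ^ ((l : ℝ) * p)) * m l

/-- STRONG: strong type at frequency `λ` -/
def T_STRONG : Prop := ∀ (n : ℕ) (p η : ℝ), 2 ≤ n → 2 + 2 / (n : ℝ) ≤ p → 0 < η →
  ∃ C : ℝ≥0, ∀ (lam : ℝ) (f : EE (n + 1) → ℂ), 1 ≤ lam → Axial f → Measurable f →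
  Integrable f → (∃ A : ℝ, ∀ x, ‖f x‖ ≤ A) →
  ∫⁻ t in Icc (1 : ℝ) 2, ∫⁻ x, ‖MM (mT lam t) f x‖ₑ ^ p ≤
    C * ENNReal.ofReal (lam ^ ((n : ℝ) * (p / 2 - 1) - 1 + η)) * ∫⁻ x, ‖f x‖ₑ ^ p

/-- `cos(t√-Δ) f` -/
noncomputable def cosS {d : ℕ} (f : EE d → ℂ) (t : ℝ) (x : EE d) : ℂ :=
  𝓕⁻ (fun ξ : EE d => ((Real.cos (2 * Real.pi * t * ‖ξ‖) : ℝ) : ℂ) * 𝓕 f ξ) x

/-- `sin(t√-Δ)/√-Δ f` -/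
noncomputable def sinS {d : ℕ} (f : EE d → ℂ) (t : ℝ) (x : EE d) : ℂ :=
  𝓕⁻ (fun ξ : EE d => ((Real.sin (2 * Real.pi * t * ‖ξ‖) / (2 * Real.pi * ‖ξ‖) : ℝ) : ℂ) * 𝓕 f ξ) x

/-- `(I - Δ)^{s/2} f` -/
noncomputable def besS {d : ℕ} (s : ℝ) (f : EE d → ℂ) (x : EE d) : ℂ :=
  𝓕⁻ (fun ξ : EE d => (((1 + 4 * Real.pi ^ 2 * ‖ξ‖ ^ 2) ^ (s / 2) : ℝ) : ℂ) * 𝓕 f ξ) x

/-- LOWF: low frequencies -/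
def T_LOWF : Prop := ∀ (d : ℕ) (r : ℝ), 2 ≤ d → ∃ C : ℝ≥0, ∀ t ∈ Icc (0 : ℝ) 2,
  (∫⁻ x : EE d, ‖MK (fun ξ : EE d => ((eta0 ‖ξ‖ * Real.cos (2 * Real.pi * t * ‖ξ‖) *
    (1 + 4 * Real.pi ^ 2 * ‖ξ‖ ^ 2) ^ (-r / 2) : ℝ) : ℂ)) x‖ₑ ≤ C) ∧
  (∫⁻ x : EE d, ‖MK (fun ξ : EE d => ((eta0 ‖ξ‖ *
    (Real.sin (2 * Real.pi * t * ‖ξ‖) / (2 * Real.pi * ‖ξ‖)) *
    (1 + 4 * Real.pi ^ 2 * ‖ξ‖ ^ 2) ^ (-r / 2) : ℝ) : ℂ)) x‖ₑ ≤ C)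

/-- HIGHF: one dyadic block applied to Schwartz functions; `i = 0`: cosine, `i = 1`: sine -/
def T_HIGHF : Prop := ∀ (n : ℕ) (p r η : ℝ), 2 ≤ n → 2 + 2 / (n : ℝ) ≤ p → 0 < η →
  ∃ C : ℝ≥0, ∀ (lam : ℝ) (u : 𝓢(EE (n + 1), ℂ)), 1 ≤ lam → Axial (u : EE (n + 1) → ℂ) →
  (∫⁻ t in Icc (1 : ℝ) 2, ∫⁻ x, ‖MM (fun ξ => ((Real.cos (2 * Real.pi * t * ‖ξ‖) *
      chi (‖ξ‖ / lam) : ℝ) : ℂ)) u x‖ₑ ^ p ≤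
    C * ENNReal.ofReal (lam ^ ((n : ℝ) * (p / 2 - 1) - 1 - p * r + η)) *
      ∫⁻ x, ‖besS r u x‖ₑ ^ p) ∧
  (∫⁻ t in Icc (1 : ℝ) 2, ∫⁻ x, ‖MM (fun ξ => ((Real.sin (2 * Real.pi * t * ‖ξ‖) /
      (2 * Real.pi * ‖ξ‖) * chi (‖ξ‖ / lam) : ℝ) : ℂ)) u x‖ₑ ^ p ≤
    C * ENNReal.ofReal (lam ^ ((n : ℝ) * (p / 2 - 1) - 1 - p * (r + 1) + η)) *
      ∫⁻ x, ‖besS r u x‖ₑ ^ p)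

/-- FIN: the theorem -/
def T_FIN : Prop := ∀ (n : ℕ) (p σ : ℝ), 2 ≤ n → 2 + 2 / (n : ℝ) ≤ p → σ < 1 / p →
  ∃ C : ℝ≥0, ∀ u₀ u₁ : 𝓢(EE (n + 1), ℂ), Axial (u₀ : EE (n + 1) → ℂ) →
  Axial (u₁ : EE (n + 1) → ℂ) →
  (∫⁻ t in Icc (1 : ℝ) 2, eLpNorm (fun x => cosS u₀ t x + sinS u₁ t x) (ENNReal.ofReal p)
    volume ^ p) ^ (1 / p) ≤
  (C : ℝ≥0∞) * (eLpNorm (besS ((n : ℝ) / 2 - n / p - σ) u₀) (ENNReal.ofReal p) volume +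
    eLpNorm (besS ((n : ℝ) / 2 - n / p - 1 - σ) u₁) (ENNReal.ofReal p) volume)

end Pool.Agent.H83.LS
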