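import Pool.Agent.H83.LS.Targets3

/-!
Local smoothing for all data with finitely many derivatives along the rotations about one axis:
targets of wave 4 (deduction from the axially symmetric case).
-/

set_option autoImplicit false

namespace Pool.Agent.H83.LS

open MeasureTheory Set FourierTransform
open scoped ENNReal NNReal SchwartzMap

/-- the point `(y, z)` of `ℝ^(n+1)` -/
noncomputable def jo {n : ℕ} (y : EE n) (z : ℝ) : EE (n + 1) :=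
  WithLp.toLp 2 (Fin.snoc (α := fun _ => ℝ) (fun i => y i) z)

/-- the first `n` coordinates -/
noncomputable def pr {n : ℕ} (x : EE (n + 1)) : EE n := WithLp.toLp 2 (fun i => x i.castSucc)

/-- generator of the rotations in the plane of the coordinates `i, j < n` -/
noncomputable def rot {n : ℕ} (i j : Fin n) (f : EE (n + 1) → ℂ) (x : EE (n + 1)) : ℂ :=
  ((x i.castSucc : ℝ) : ℂ) * fderiv ℝ f x (EuclideanSpace.single j.castSucc 1) -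
    ((x j.castSucc : ℝ) : ℂ) * fderiv ℝ f x (EuclideanSpace.single i.castSucc 1)

/-- products of generators -/
noncomputable def rotW {n : ℕ} (w : List (Fin n × Fin n)) (f : EE (n + 1) → ℂ) :
    EE (n + 1) → ℂ :=
  w.foldr (fun q g => rot q.1 q.2 g) f

/-- ROT: generators of rotations, Fourier transform and invariant multipliers -/
def T_ROT : Prop := ∀ (n : ℕ) (f : 𝓢(EE (n + 1), ℂ)) (w : List (Fin n × Fin n)),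
  (∃ g : 𝓢(EE (n + 1), ℂ), ∀ x, g x = rotW w f x) ∧
  (∀ ξ, 𝓕 (rotW w f) ξ = rotW w (𝓕 (f : EE (n + 1) → ℂ)) ξ) ∧
  ∀ μ : EE (n + 1) → ℂ, μ.HasTemperateGrowth → (∀ i j ξ, rot i j μ ξ = 0) →
    (∃ g : 𝓢(EE (n + 1), ℂ), ∀ x, g x = 𝓕⁻ (fun ξ => μ ξ * 𝓕 (f : EE (n + 1) → ℂ) ξ) x) ∧
    ∀ x, rotW w (fun x => 𝓕⁻ (fun ξ => μ ξ * 𝓕 (f : EE (n + 1) → ℂ) ξ) x) x =
      𝓕⁻ (fun ξ => μ ξ * 𝓕 (rotW w f) ξ) x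

/-- average over the rotations fixing the last coordinate axis (times the area of the sphere) -/
noncomputable def av {n : ℕ} (F : EE (n + 1) → ℂ) (x : EE (n + 1)) : ℂ :=
  ∫ ω : Metric.sphere (0 : EE n) 1, F (jo (hor x • (ω : EE n)) (x (Fin.last n)))
    ∂(volume : Measure (EE n)).toSphere

/-- AVG: properties of the average -/
def T_AVG : Prop := ∀ (n : ℕ) (p : ℝ), 2 ≤ n → 1 ≤ p → ∃ C : ℝ≥0,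
  ∀ (F : EE (n + 1) → ℂ) (A : ℝ), Measurable F → Integrable F → (∀ x, ‖F x‖ ≤ A) →
  Axial (av F) ∧ Measurable (av F) ∧ Integrable (av F) ∧ (∃ A' : ℝ, ∀ x, ‖av F x‖ ≤ A') ∧
  (∀ ξ, 𝓕 (av F) ξ = av (𝓕 F) ξ) ∧ ∫⁻ x, ‖av F x‖ₑ ^ p ≤ C * ∫⁻ x, ‖F x‖ₑ ^ p

/-- `∫ e(-a·y) χ♯(|y|) G(s y/|y|, η) dy` -/
noncomputable def ca {n : ℕ} (G : EE (n + 1) → ℂ) (a : EE n) (s η : ℝ) : ℂ :=
  ∫ y : EE n, e (-(inner ℝ a y)) * ((chis ‖y‖ : ℝ) : ℂ) * G (jo ((s / ‖y‖) • y) η)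

/-- smooth with support in the annulus `1/8 ≤ |y| ≤ 8` -/
def AN {n : ℕ} (W : EE n → ℂ) : Prop := ContDiff ℝ (⊤ : ℕ∞) W ∧
  ∀ y, W y ≠ 0 → 1 / 8 ≤ ‖y‖ ∧ ‖y‖ ≤ 8

/-- ANG: integration by parts in `ca` -/
def T_ANG : Prop := ∀ n N : ℕ, 1 ≤ n → ∃ (S : Finset (List (Fin n × Fin n)))
  (c : Fin n → List (Fin n × Fin n) → EE n → ℂ), (∀ w ∈ S, w.length ≤ N) ∧ (∀ i w, AN (c i w)) ∧
  ∀ (G : 𝓢(EE (n + 1), ℂ)) (a : EE n) (s η : ℝ) (i : Fin n),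
    (2 * Real.pi * Complex.I * (a i : ℂ)) ^ N * ca G a s η =
      ∑ w ∈ S, ∫ y : EE n, e (-(inner ℝ a y)) * c i w y * rotW w G (jo ((s / ‖y‖) • y) η)

/-- INVA: expansion of a function of `ξ'/|ξ'|` -/
def T_INVA : Prop := ∀ (n : ℕ), 1 ≤ n → ∀ (G : 𝓢(EE (n + 1), ℂ)) (ξ : EE (n + 1)), hor ξ ≠ 0 →
  Integrable (fun a : EE n => ca G a (hor ξ) (ξ (Fin.last n))) ∧
  G ξ = ∫ a : EE n, e (inner ℝ a ((1 / hor ξ) • pr ξ)) * ca G a (hor ξ) (ξ (Fin.last n))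

/-- KERN: `L¹` norm of kernels whose symbol depends on `ξ'/|ξ'|` -/
def T_KERN : Prop := ∀ (n : ℕ), 2 ≤ n → ∀ (W : EE n → ℂ) (X₁ X₂ : ℝ → ℂ), AN W →
  CB 0 1 X₁ → CB 0 1 X₂ → ∃ C : ℝ≥0, ∀ (a : EE n) (r lam Lam : ℝ), 1 / 8 ≤ r → r ≤ 8 →
  0 < Lam → Lam ≤ 4 * lam →
  ∫⁻ x : EE (n + 1), ‖MK (fun ξ : EE (n + 1) => e (inner ℝ a ((r / hor ξ) • pr ξ)) *
    W ((r / hor ξ) • pr ξ) * X₁ (hor ξ / Lam) * X₂ (‖ξ‖ / lam)) x‖ₑ ≤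
    C * ENNReal.ofReal ((1 + ‖a‖) ^ (n + 2))

/-- GA: axially symmetric functions attached to `F` -/
def T_GA : Prop := ∀ (n : ℕ) (p : ℝ), 2 ≤ n → 1 ≤ p → ∀ W : EE n → ℂ, AN W → ∃ C : ℝ≥0,
  ∀ (a : EE n) (lam Lam : ℝ) (F : 𝓢(EE (n + 1), ℂ)), 0 < Lam → Lam ≤ 4 * lam →
  ∃ g : EE (n + 1) → ℂ, Axial g ∧ Measurable g ∧ Integrable g ∧ (∃ A : ℝ, ∀ x, ‖g x‖ ≤ A) ∧
  (∀ ξ, 𝓕 g ξ = ((chi (hor ξ / Lam) * chis (‖ξ‖ / lam) : ℝ) : ℂ) *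
    ∫ y : EE n, e (-(inner ℝ a y)) * W y *
      𝓕 (F : EE (n + 1) → ℂ) (jo ((hor ξ / ‖y‖) • y) (ξ (Fin.last n)))) ∧
  ∫⁻ x, ‖g x‖ₑ ^ p ≤ C * ENNReal.ofReal (((1 + ‖a‖) ^ (n + 2)) ^ p) * ∫⁻ x, ‖F x‖ₑ ^ p

/-- the evolution of the axially symmetric function with symbol `ca G a` -/
noncomputable def wa {n : ℕ} (lam Lam t : ℝ) (G : EE (n + 1) → ℂ) (a : EE n)
    (x : EE (n + 1)) : ℂ :=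
  ∫ ξ : EE (n + 1), e (inner ℝ x ξ) * (e (t * ‖ξ‖) *
    ((chi (‖ξ‖ / lam) * chi (hor ξ / Lam) : ℝ) : ℂ) * ca G a (hor ξ) (ξ (Fin.last n)))

/-- WA: bound for `wa` -/
def T_WA : Prop := ∀ (n : ℕ) (p η : ℝ) (N₀ : ℕ), 2 ≤ n → 2 + 2 / (n : ℝ) ≤ p → 0 < η →
  ∃ (N : ℕ) (C : ℝ≥0), ∀ (lam Lam : ℝ) (f : 𝓢(EE (n + 1), ℂ)) (a : EE n) (B : ℝ≥0∞),
  1 ≤ lam → 0 < Lam → Lam ≤ 4 * lam →
  (∀ w : List (Fin n × Fin n), w.length ≤ N → ∫⁻ x, ‖rotW w f x‖ₑ ^ p ≤ B) →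
  ∫⁻ t in Icc (1 : ℝ) 2, ∫⁻ x, ‖wa lam Lam t (𝓕 (f : EE (n + 1) → ℂ)) a x‖ₑ ^ p ≤
    C * ENNReal.ofReal (lam ^ ((n : ℝ) * (p / 2 - 1) - 1 + η) * ((1 + ‖a‖) ^ N₀)⁻¹) * B

/-- BLK: one dyadic block, all Schwartz functions -/
def T_BLK : Prop := ∀ (n : ℕ) (p η : ℝ), 2 ≤ n → 2 + 2 / (n : ℝ) ≤ p → 0 < η →
  ∃ (N : ℕ) (C : ℝ≥0), ∀ (lam : ℝ) (f : 𝓢(EE (n + 1), ℂ)) (B : ℝ≥0∞), 1 ≤ lam →
  (∀ w : List (Fin n × Fin n), w.length ≤ N → ∫⁻ x, ‖rotW w f x‖ₑ ^ p ≤ B) →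
  ∫⁻ t in Icc (1 : ℝ) 2, ∫⁻ x, ‖MM (mT lam t) f x‖ₑ ^ p ≤
    C * ENNReal.ofReal (lam ^ ((n : ℝ) * (p / 2 - 1) - 1 + η)) * B

/-- HIGHG: one dyadic block, Bessel potentials -/
def T_HIGHG : Prop := ∀ (n : ℕ) (p r η : ℝ), 2 ≤ n → 2 + 2 / (n : ℝ) ≤ p → 0 < η →
  ∃ (N : ℕ) (C : ℝ≥0), ∀ (lam : ℝ) (u : 𝓢(EE (n + 1), ℂ)) (B : ℝ≥0∞), 1 ≤ lam →
  (∀ w : List (Fin n × Fin n), w.length ≤ N → ∫⁻ x, ‖besS r (rotW w u) x‖ₑ ^ p ≤ B) →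
  (∫⁻ t in Icc (1 : ℝ) 2, ∫⁻ x, ‖MM (fun ξ => ((Real.cos (2 * Real.pi * t * ‖ξ‖) *
      chi (‖ξ‖ / lam) : ℝ) : ℂ)) u x‖ₑ ^ p ≤
    C * ENNReal.ofReal (lam ^ ((n : ℝ) * (p / 2 - 1) - 1 - p * r + η)) * B) ∧
  (∫⁻ t in Icc (1 : ℝ) 2, ∫⁻ x, ‖MM (fun ξ => ((Real.sin (2 * Real.pi * t * ‖ξ‖) /
      (2 * Real.pi * ‖ξ‖) * chi (‖ξ‖ / lam) : ℝ) : ℂ)) u x‖ₑ ^ p ≤
    C * ENNReal.ofReal (lam ^ ((n : ℝ) * (p / 2 - 1) - 1 - p * (r + 1) + η)) * B)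

/-- FING: the theorem for all data, with finitely many angular derivatives -/
def T_FING : Prop := ∀ (n : ℕ) (p σ : ℝ), 2 ≤ n → 2 + 2 / (n : ℝ) ≤ p → σ < 1 / p →
  ∃ (N : ℕ) (C : ℝ≥0), ∀ (u₀ u₁ : 𝓢(EE (n + 1), ℂ)) (B : ℝ≥0∞),
  (∀ w : List (Fin n × Fin n), w.length ≤ N →
    eLpNorm (besS ((n : ℝ) / 2 - n / p - σ) (rotW w u₀)) (ENNReal.ofReal p) volume +
    eLpNorm (besS ((n : ℝ) / 2 - n / p - 1 - σ) (rotW w u₁)) (ENNReal.ofReal p) volume ≤ B) →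
  (∫⁻ t in Icc (1 : ℝ) 2, eLpNorm (fun x => cosS u₀ t x + sinS u₁ t x) (ENNReal.ofReal p)
    volume ^ p) ^ (1 / p) ≤ (C : ℝ≥0∞) * B

/-! ### versions with an explicit number of angular derivatives -/

/-- WA with `K + n + 2` angular derivatives -/
def T_WAe : Prop := ∀ (n : ℕ) (p η : ℝ) (K : ℕ), 2 ≤ n → 2 + 2 / (n : ℝ) ≤ p → 0 < η →
  ∃ C : ℝ≥0, ∀ (lam Lam : ℝ) (f : 𝓢(EE (n + 1), ℂ)) (a : EE n) (B : ℝ≥0∞),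
  1 ≤ lam → 0 < Lam → Lam ≤ 4 * lam →
  (∀ w : List (Fin n × Fin n), w.length ≤ K + n + 2 → ∫⁻ x, ‖rotW w f x‖ₑ ^ p ≤ B) →
  ∫⁻ t in Icc (1 : ℝ) 2, ∫⁻ x, ‖wa lam Lam t (𝓕 (f : EE (n + 1) → ℂ)) a x‖ₑ ^ p ≤
    C * ENNReal.ofReal (lam ^ ((n : ℝ) * (p / 2 - 1) - 1 + η) *
      (((1 + ‖a‖) ^ K) ^ p)⁻¹) * B

/-- BLK with `3n + 5` angular derivatives -/
def T_BLKe : Prop := ∀ (n : ℕ) (p η : ℝ), 2 ≤ n → 2 + 2 / (n : ℝ) ≤ p → 0 < η →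
  ∃ C : ℝ≥0, ∀ (lam : ℝ) (f : 𝓢(EE (n + 1), ℂ)) (B : ℝ≥0∞), 1 ≤ lam →
  (∀ w : List (Fin n × Fin n), w.length ≤ 3 * n + 5 → ∫⁻ x, ‖rotW w f x‖ₑ ^ p ≤ B) →
  ∫⁻ t in Icc (1 : ℝ) 2, ∫⁻ x, ‖MM (mT lam t) f x‖ₑ ^ p ≤
    C * ENNReal.ofReal (lam ^ ((n : ℝ) * (p / 2 - 1) - 1 + η)) * B

/-- HIGHG with `3n + 5` angular derivatives -/
def T_HIGHGe : Prop := ∀ (n : ℕ) (p r η : ℝ), 2 ≤ n → 2 + 2 / (n : ℝ) ≤ p → 0 < η →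
  ∃ C : ℝ≥0, ∀ (lam : ℝ) (u : 𝓢(EE (n + 1), ℂ)) (B : ℝ≥0∞), 1 ≤ lam →
  (∀ w : List (Fin n × Fin n), w.length ≤ 3 * n + 5 → ∫⁻ x, ‖besS r (rotW w u) x‖ₑ ^ p ≤ B) →
  (∫⁻ t in Icc (1 : ℝ) 2, ∫⁻ x, ‖MM (fun ξ => ((Real.cos (2 * Real.pi * t * ‖ξ‖) *
      chi (‖ξ‖ / lam) : ℝ) : ℂ)) u x‖ₑ ^ p ≤
    C * ENNReal.ofReal (lam ^ ((n : ℝ) * (p / 2 - 1) - 1 - p * r + η)) * B) ∧
  (∫⁻ t in Icc (1 : ℝ) 2, ∫⁻ x, ‖MM (fun ξ => ((Real.sin (2 * Real.pi * t * ‖ξ‖) /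
      (2 * Real.pi * ‖ξ‖) * chi (‖ξ‖ / lam) : ℝ) : ℂ)) u x‖ₑ ^ p ≤
    C * ENNReal.ofReal (lam ^ ((n : ℝ) * (p / 2 - 1) - 1 - p * (r + 1) + η)) * B)

/-- FING with `3n + 5` angular derivatives -/
def T_FINGe : Prop := ∀ (n : ℕ) (p σ : ℝ), 2 ≤ n → 2 + 2 / (n : ℝ) ≤ p → σ < 1 / p →
  ∃ C : ℝ≥0, ∀ (u₀ u₁ : 𝓢(EE (n + 1), ℂ)) (B : ℝ≥0∞),
  (∀ w : List (Fin n × Fin n), w.length ≤ 3 * n + 5 →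
    eLpNorm (besS ((n : ℝ) / 2 - n / p - σ) (rotW w u₀)) (ENNReal.ofReal p) volume +
    eLpNorm (besS ((n : ℝ) / 2 - n / p - 1 - σ) (rotW w u₁)) (ENNReal.ofReal p) volume ≤ B) →
  (∫⁻ t in Icc (1 : ℝ) 2, eLpNorm (fun x => cosS u₀ t x + sinS u₁ t x) (ENNReal.ofReal p)
    volume ^ p) ^ (1 / p) ≤ (C : ℝ≥0∞) * B

end Pool.Agent.H83.LS
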