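import Pool.Agent.H14.LS.Highf
import Pool.Agent.H85.LS.ROT

/-!
Module HIGHG (explicit version), adapted from module HIGHF of helper14.
-/

set_option autoImplicit false

namespace Pool.Agent.H83.LS.HG

open MeasureTheory Set FourierTransform
open scoped ENNReal NNReal SchwartzMap
open Pool.Agent.H83.LS Pool.Agent.H14.LS

/-- radial functions are killed by the generators of rotations -/
theorem rot_radial {n : ℕ} {κ : ℝ → ℂ} (hκ : Sm κ) {lam : ℝ} (hl : 0 < lam) (i j : Fin n)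
    (ξ : EE (n + 1)) : rot i j (fun ξ : EE (n + 1) => κ (‖ξ‖ / lam)) ξ = 0 := by
  by_cases hξ : ξ = 0
  · subst hξ
    unfold rot
    simp
  · have hn : 0 < ‖ξ‖ := norm_pos_iff.mpr hξ
    have h1 : HasFDerivAt (fun x : EE (n + 1) => ‖x‖ ^ 2) (2 • (innerSL ℝ ξ)) ξ :=
      (hasStrictFDerivAt_norm_sq ξ).hasFDerivAt
    have hpos : 0 < ‖ξ‖ ^ 2 := by positivity
    have h2 : DifferentiableAt ℝ (fun y : ℝ => κ (√y / lam)) (‖ξ‖ ^ 2) := by
      have hd : Differentiable ℝ κ := hκ.1.differentiable (by simp)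
      have hs : DifferentiableAt ℝ (fun y : ℝ => √y / lam) (‖ξ‖ ^ 2) :=
        (Real.hasDerivAt_sqrt hpos.ne').differentiableAt.div_const _
      exact (hd _).comp _ hs
    obtain ⟨g, hg⟩ : ∃ g : ℂ, HasDerivAt (fun y : ℝ => κ (√y / lam)) g (‖ξ‖ ^ 2) :=
      ⟨_, h2.hasDerivAt⟩
    have h3 : HasFDerivAt (fun x : EE (n + 1) => κ (√(‖x‖ ^ 2) / lam))
        ((ContinuousLinearMap.toSpanSingleton ℝ g).comp (2 • (innerSL ℝ ξ))) ξ :=
      HasFDerivAt.comp (g := fun y : ℝ => κ (√y / lam)) (f := fun x : EE (n + 1) => ‖x‖ ^ 2) ξ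
        hg.hasFDerivAt h1
    have h4 : (fun x : EE (n + 1) => κ (√(‖x‖ ^ 2) / lam)) =
        (fun x : EE (n + 1) => κ (‖x‖ / lam)) := by
      funext x
      rw [Real.sqrt_sq (norm_nonneg _)]
    rw [h4] at h3
    unfold rot
    rw [h3.fderiv]
    simp only [ContinuousLinearMap.comp_apply, ContinuousLinearMap.toSpanSingleton_apply,
      smul_apply, innerSL_apply_apply, EuclideanSpace.inner_single_right]
    simp
    ring

/-- complex conjugate of a Schwartz function -/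
noncomputable def cjS {d : ℕ} (v : 𝓢(EE d, ℂ)) : 𝓢(EE d, ℂ) :=
  SchwartzMap.postcompCLM (𝕜 := ℝ) (Complex.conjCLE : ℂ →L[ℝ] ℂ) v

theorem cjS_apply {d : ℕ} (v : 𝓢(EE d, ℂ)) (x : EE d) : cjS v x = (starRingEnd ℂ) (v x) := rfl

theorem rot_conj {n : ℕ} (i j : Fin n) {f : EE (n + 1) → ℂ} (x : EE (n + 1)) :
    rot i j (fun y => (starRingEnd ℂ) (f y)) x = (starRingEnd ℂ) (rot i j f x) := by
  unfold rot
  have h1 : fderiv ℝ (fun y => (starRingEnd ℂ) (f y)) x =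
      (Complex.conjCLE : ℂ →L[ℝ] ℂ).comp (fderiv ℝ f x) := by
    have := (Complex.conjCLE).comp_fderiv (f := f) (x := x)
    exact this
  rw [h1]
  simp [map_sub, map_mul]

theorem rotW_conj {n : ℕ} (w : List (Fin n × Fin n)) (f : EE (n + 1) → ℂ) (x : EE (n + 1)) :
    rotW w (fun y => (starRingEnd ℂ) (f y)) x = (starRingEnd ℂ) (rotW w f x) := by
  have h : rotW w (fun y => (starRingEnd ℂ) (f y)) = fun y => (starRingEnd ℂ) (rotW w f y) := by
    induction w with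
    | nil => rfl
    | cons q w ih =>
      change rot q.1 q.2 (rotW w (fun y => (starRingEnd ℂ) (f y))) =
        fun y => (starRingEnd ℂ) (rot q.1 q.2 (rotW w f) y)
      rw [ih]
      funext y
      exact rot_conj q.1 q.2 y
  rw [h]

/-- the analytic core -/
theorem coreg (hS : T_BLKe) (hR : T_RADL) (hYG : T_YG) (hROT : T_ROT) {n : ℕ} {p r η : ℝ}
    (hn : 2 ≤ n) (hp : 2 + 2 / (n : ℝ) ≤ p) (hη : 0 < η) {κ : ℝ → ℂ} (hκ : Sm κ) :
    ∃ C : ℝ≥0, ∀ (lam : ℝ) (u v : 𝓢(EE (n + 1), ℂ)) (Bd : ℝ≥0∞), 1 ≤ lam →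
      (∀ w : List (Fin n × Fin n), w.length ≤ 3 * n + 5 →
        ∫⁻ x, ‖besS r (rotW w u) x‖ₑ ^ p ≤ Bd) →
      (∀ x, v x = MM (fun ξ => κ (‖ξ‖ / lam)) u x) →
      (∫⁻ t in Icc (1 : ℝ) 2, ∫⁻ x, ‖MM (mT lam t) v x‖ₑ ^ p ≤
        C * ENNReal.ofReal (lam ^ ((n : ℝ) * (p / 2 - 1) - 1 - p * r + η)) * Bd) ∧
      (∫⁻ t in Icc (1 : ℝ) 2, ∫⁻ x, ‖MM (mT lam t) (fun y => (starRingEnd ℂ) (v y)) x‖ₑ ^ p ≤
        C * ENNReal.ofReal (lam ^ ((n : ℝ) * (p / 2 - 1) - 1 - p * r + η)) * Bd) := by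
  have hp1 : 1 ≤ p := by
    have : 0 ≤ 2 / (n : ℝ) := by positivity
    linarith
  obtain ⟨C₁, hC₁⟩ := hS n p η hn hp hη
  obtain ⟨M, C₂, hC₂⟩ := hR (n + 1) (by omega)
  obtain ⟨B, hB0, hB⟩ := fam_CB hκ r M
  refine ⟨C₁ * (Real.toNNReal (C₂ * B)) ^ p, ?_⟩
  intro lam u v Bd hl hu hv
  have hl0 : 0 < lam := by linarith
  -- the kernel
  have ha : 1 / lam ∈ Icc (0 : ℝ) 1 := by
    refine ⟨by positivity, ?_⟩
    rw [div_le_one hl0]; exact hl
  have hK := (hC₂ (fam κ r (1 / lam)) B lam 0 (hB _ ha) hl0 le_rfl).1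
  have hrk : rk (d := n + 1) (fam κ r (1 / lam)) lam 0 =
      MK (fun ξ => fam κ r (1 / lam) (‖ξ‖ / lam)) := by
    funext x
    unfold rk
    congr 1
    funext ξ
    rw [zero_mul, e_zero, one_mul]
  rw [hrk, mul_zero, add_zero, Real.one_rpow, mul_one] at hK
  have hfS := fam_Sm hκ r (1 / lam)
  -- the bound for one Schwartz function
  have one : ∀ u' : 𝓢(EE (n + 1), ℂ),
      ∫⁻ x, ‖MM (fun ξ => κ (‖ξ‖ / lam)) u' x‖ₑ ^ p ≤ ENNReal.ofReal (lam ^ (-(p * r))) *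
      ((Real.toNNReal (C₂ * B) : ℝ≥0∞) ^ p * ∫⁻ x, ‖besS r u' x‖ₑ ^ p) := by
    intro u'
    obtain ⟨g, hg1, hg2⟩ := besS_schwartz r u'
    have hY := MM_young hYG (radial_int (d := n + 1) hfS hl0) g.integrable
      g.continuous.measurable hp1
    have hvg : ∀ x, MM (fun ξ => κ (‖ξ‖ / lam)) u' x = ((lam ^ (-r) : ℝ) : ℂ) *
        MM (fun ξ => fam κ r (1 / lam) (‖ξ‖ / lam)) g x := by
      intro x
      unfold MM
      rw [← integral_const_mul]
      congr 1; ext ξ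
      rw [hg1]
      have h1 := fam_bs κ r hl0 ξ
      simp only
      rw [h1]
      ring
    have h1 : ∀ x, ‖MM (fun ξ => κ (‖ξ‖ / lam)) u' x‖ₑ ^ p = ENNReal.ofReal (lam ^ (-(p * r))) *
        ‖MM (fun ξ => fam κ r (1 / lam) (‖ξ‖ / lam)) g x‖ₑ ^ p := by
      intro x
      rw [hvg, enorm_mul, ENNReal.mul_rpow_of_nonneg _ _ (by linarith)]
      congr 1
      rw [← ofReal_norm, Complex.norm_real, Real.norm_of_nonneg (by positivity),
        ENNReal.ofReal_rpow_of_nonneg (by positivity) (by linarith), ← Real.rpow_mul hl0.le]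
      congr 2; ring
    simp_rw [h1]
    rw [lintegral_const_mul' _ _ ENNReal.ofReal_ne_top]
    gcongr
    refine le_trans hY ?_
    have h2 : ∫⁻ x, ‖g x‖ₑ ^ p = ∫⁻ x, ‖besS r u' x‖ₑ ^ p := by
      congr 1; ext x; rw [hg2]
    rw [h2]
    gcongr
    exact hK
  have hvMM : (v : EE (n + 1) → ℂ) = fun x => 𝓕⁻ (fun ξ => κ (‖ξ‖ / lam) *
      𝓕 (u : EE (n + 1) → ℂ) ξ) x := by
    funext x
    rw [hv x, MM_eq]
  have hvw : ∀ w : List (Fin n × Fin n), w.length ≤ 3 * n + 5 →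
      ∫⁻ x, ‖rotW w v x‖ₑ ^ p ≤ ENNReal.ofReal (lam ^ (-(p * r))) *
      ((Real.toNNReal (C₂ * B) : ℝ≥0∞) ^ p * Bd) := by
    intro w hw
    have h1 := one (Pool.Agent.H85.LS.RW w u)
    rw [Pool.Agent.H85.LS.RW_coe] at h1
    have h2 : ∀ x, rotW w v x = MM (fun ξ => κ (‖ξ‖ / lam)) (rotW w u) x := by
      intro x
      rw [hvMM, MM_eq]
      exact (hROT n u w).2.2 (fun ξ => κ (‖ξ‖ / lam)) (radial_temp hκ hl0)
        (fun i j ξ => rot_radial hκ hl0 i j ξ) |>.2 x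
    simp_rw [h2]
    refine h1.trans ?_
    gcongr
    exact hu w hw
  have hfin : ∀ v' : 𝓢(EE (n + 1), ℂ), (∀ w : List (Fin n × Fin n), w.length ≤ 3 * n + 5 →
      ∫⁻ x, ‖rotW w v' x‖ₑ ^ p ≤ ENNReal.ofReal (lam ^ (-(p * r))) *
      ((Real.toNNReal (C₂ * B) : ℝ≥0∞) ^ p * Bd)) →
      ∫⁻ t in Icc (1 : ℝ) 2, ∫⁻ x, ‖MM (mT lam t) v' x‖ₑ ^ p ≤
        ((C₁ * (Real.toNNReal (C₂ * B)) ^ p : ℝ≥0) : ℝ≥0∞) *
          ENNReal.ofReal (lam ^ ((n : ℝ) * (p / 2 - 1) - 1 - p * r + η)) * Bd := by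
    intro v' hv'
    refine le_trans (hC₁ lam v' _ hl hv') (le_of_eq ?_)
    have h2 : lam ^ ((n : ℝ) * (p / 2 - 1) - 1 - p * r + η) =
        lam ^ ((n : ℝ) * (p / 2 - 1) - 1 + η) * lam ^ (-(p * r)) := by
      rw [← Real.rpow_add hl0]; congr 1; ring
    rw [h2, ENNReal.ofReal_mul (by positivity), ENNReal.coe_mul,
      ENNReal.coe_rpow_of_nonneg _ (by linarith)]
    ring
  constructor
  · exact hfin v hvw
  · have h1 : (fun y => (starRingEnd ℂ) (v y)) = (cjS v : EE (n + 1) → ℂ) := rfl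
    rw [h1]
    apply hfin
    intro w hw
    have h2 : ∀ x, ‖rotW w (cjS v : EE (n + 1) → ℂ) x‖ₑ = ‖rotW w v x‖ₑ := by
      intro x
      rw [← h1, rotW_conj, ← ofReal_norm, RCLike.norm_conj, ofReal_norm]
    simp_rw [h2]
    exact hvw w hw

set_option maxHeartbeats 1600000 in
theorem highge (hS : T_BLKe) (hR : T_RADL) (hYG : T_YG) (hROT : T_ROT) : T_HIGHGe := by
  intro n p r η hn hp hη
  have hp0 : 0 ≤ p := by
    have : 0 ≤ 2 / (n : ℝ) := by positivity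
    linarith
  obtain ⟨C₀, hC₀⟩ := coreg hS hR hYG hROT (r := r) hn hp hη kap0_Sm
  obtain ⟨C₁, hC₁⟩ := coreg hS hR hYG hROT (r := r) hn hp hη kap1_Sm
  refine ⟨2 * (C₀ + C₁), ?_⟩
  intro lam u Bd hl hu
  have hl0 : 0 < lam := by linarith
  have hcm : ∀ t : ℝ, Measurable fun ξ : EE (n + 1) => (starRingEnd ℂ) (mT lam t ξ) := by
    intro t
    exact Complex.continuous_conj.measurable.comp
      ((mT_meas lam).comp (measurable_const.prodMk measurable_id))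
  have hmm : ∀ t : ℝ, Measurable fun ξ : EE (n + 1) => mT lam t ξ := fun t =>
    (mT_meas lam).comp (measurable_const.prodMk measurable_id)
  have hcn : ∀ (t : ℝ) (ξ : EE (n + 1)), ‖(starRingEnd ℂ) (mT lam t ξ)‖ ≤ 1 := by
    intro t ξ; rw [RCLike.norm_conj]; exact mT_norm lam t ξ
  constructor
  · obtain ⟨v, hv1, hv2⟩ := schwartz_mult (radial_temp (d := n + 1) kap0_Sm hl0) u
    obtain ⟨hA, hB⟩ := hC₀ lam u v Bd hl hu hv2
    refine le_trans (split_bound lam p hp0 v _ (1 / 2) (by simp) 1 (by simp) ?_) ?_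
    · intro t x
      rw [one_mul]
      unfold MM
      rw [← integral_add (sym_int (hmm t) (mT_norm lam t) v x) (sym_int (hcm t) (hcn t) v x),
        ← integral_const_mul]
      congr 1; ext ξ
      rw [hv1]
      unfold mT kap0
      rw [map_mul, Complex.conj_ofReal, conj_e, e_eq (t * ‖ξ‖), e_eq (-(t * ‖ξ‖))]
      have h1 : 2 * Real.pi * -(t * ‖ξ‖) = -(2 * Real.pi * t * ‖ξ‖) := by ring
      have h2 : 2 * Real.pi * (t * ‖ξ‖) = 2 * Real.pi * t * ‖ξ‖ := by ring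
      rw [h1, h2, Real.cos_neg, Real.sin_neg]
      have h3 : ((chi (‖ξ‖ / lam) : ℝ) : ℂ) * ((chis (‖ξ‖ / lam) : ℝ) : ℂ) =
          ((chi (‖ξ‖ / lam) : ℝ) : ℂ) := by exact_mod_cast congrArg Complex.ofReal (chi_chis _)
      push_cast
      linear_combination (-(e (inner ℝ x ξ)) * Complex.cos (2 * Real.pi * t * ‖ξ‖) *
        𝓕 (u : EE (n + 1) → ℂ) ξ) * h3
    · refine le_trans (add_le_add hA hB) ?_
      rw [← two_mul, ← mul_assoc, ← mul_assoc]
      gcongr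
      push_cast
      exact mul_le_mul_right le_self_add _
  · obtain ⟨v, hv1, hv2⟩ := schwartz_mult (radial_temp (d := n + 1) kap1_Sm hl0) u
    obtain ⟨hA, hB⟩ := hC₁ lam u v Bd hl hu hv2
    set z : ℝ → EE (n + 1) → ℂ := fun t x => (lam : ℂ) *
      MM (fun ξ => ((Real.sin (2 * Real.pi * t * ‖ξ‖) / (2 * Real.pi * ‖ξ‖) *
        chi (‖ξ‖ / lam) : ℝ) : ℂ)) u x with hz
    have hzb := split_bound lam p hp0 v z (-(1 / 2 * Complex.I)) (by simp) (-1) (by simp) ?_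
    · have h1 : ∀ t x, ‖MM (fun ξ => ((Real.sin (2 * Real.pi * t * ‖ξ‖) /
          (2 * Real.pi * ‖ξ‖) * chi (‖ξ‖ / lam) : ℝ) : ℂ)) u x‖ₑ ^ p =
          ENNReal.ofReal (lam ^ (-p)) * ‖z t x‖ₑ ^ p := by
        intro t x
        rw [hz]
        simp only
        rw [enorm_mul, ENNReal.mul_rpow_of_nonneg _ _ hp0, ← mul_assoc]
        have h2 : ‖(lam : ℂ)‖ₑ = ENNReal.ofReal lam := by
          rw [← ofReal_norm, Complex.norm_real, Real.norm_of_nonneg hl0.le]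
        rw [h2, ENNReal.ofReal_rpow_of_pos hl0, ← ENNReal.ofReal_mul (by positivity),
          ← Real.rpow_add hl0]
        simp
      simp_rw [h1]
      simp_rw [lintegral_const_mul' _ _ (ENNReal.ofReal_ne_top (r := lam ^ (-p)))]
      refine le_trans (mul_le_mul_right (le_trans hzb (add_le_add hA hB)) _) ?_
      rw [← two_mul]
      have h3 : lam ^ ((n : ℝ) * (p / 2 - 1) - 1 - p * (r + 1) + η) =
          lam ^ (-p) * lam ^ ((n : ℝ) * (p / 2 - 1) - 1 - p * r + η) := by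
        rw [← Real.rpow_add hl0]; congr 1; ring
      rw [h3, ENNReal.ofReal_mul (by positivity)]
      calc ENNReal.ofReal (lam ^ (-p)) * (2 * (C₁ *
            ENNReal.ofReal (lam ^ ((n : ℝ) * (p / 2 - 1) - 1 - p * r + η)) *
            Bd)) = ((2 * C₁ : ℝ≥0) : ℝ≥0∞) *
            (ENNReal.ofReal (lam ^ (-p)) *
            ENNReal.ofReal (lam ^ ((n : ℝ) * (p / 2 - 1) - 1 - p * r + η))) *
            Bd := by push_cast; ring
        _ ≤ _ := by
          gcongr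
          exact le_add_self
    · intro t x
      rw [hz]
      unfold MM
      beta_reduce
      rw [← integral_const_mul, ← integral_const_mul,
        ← integral_add (sym_int (hmm t) (mT_norm lam t) v x)
          ((sym_int (hcm t) (hcn t) v x).const_mul (-1)),
        ← integral_const_mul]
      congr 1; ext ξ
      rw [hv1]
      unfold mT kap1
      rw [map_mul, Complex.conj_ofReal, conj_e, e_eq (t * ‖ξ‖), e_eq (-(t * ‖ξ‖))]
      have h1 : 2 * Real.pi * -(t * ‖ξ‖) = -(2 * Real.pi * t * ‖ξ‖) := by ring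
      have h2 : 2 * Real.pi * (t * ‖ξ‖) = 2 * Real.pi * t * ‖ξ‖ := by ring
      rw [h1, h2, Real.cos_neg, Real.sin_neg]
      have h3 : chi (‖ξ‖ / lam) * (chis (‖ξ‖ / lam) / (2 * Real.pi * (‖ξ‖ / lam))) =
          lam * (chi (‖ξ‖ / lam) / (2 * Real.pi * ‖ξ‖)) := by
        rw [← mul_div_assoc, chi_chis]
        rcases eq_or_ne ‖ξ‖ 0 with h0 | h0
        · simp [h0]
        · field_simp
      have h4 : ((chi (‖ξ‖ / lam) : ℝ) : ℂ) *
          ((chis (‖ξ‖ / lam) / (2 * Real.pi * (‖ξ‖ / lam)) : ℝ) : ℂ) =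
          (lam : ℂ) * ((chi (‖ξ‖ / lam) / (2 * Real.pi * ‖ξ‖) : ℝ) : ℂ) := by
        exact_mod_cast congrArg Complex.ofReal h3
      have h5 : ((Real.sin (2 * Real.pi * t * ‖ξ‖) / (2 * Real.pi * ‖ξ‖) *
          chi (‖ξ‖ / lam) : ℝ) : ℂ) = ((Real.sin (2 * Real.pi * t * ‖ξ‖) : ℝ) : ℂ) *
          ((chi (‖ξ‖ / lam) / (2 * Real.pi * ‖ξ‖) : ℝ) : ℂ) := by
        rw [← Complex.ofReal_mul]; congr 1; ring
      rw [h5]
      generalize ((chi (‖ξ‖ / lam) / (2 * Real.pi * ‖ξ‖) : ℝ) : ℂ) = X at h4 ⊢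
      generalize ((chis (‖ξ‖ / lam) / (2 * Real.pi * (‖ξ‖ / lam)) : ℝ) : ℂ) = Y at h4 ⊢
      generalize ((chi (‖ξ‖ / lam) : ℝ) : ℂ) = Z at h4 ⊢
      generalize ((Real.cos (2 * Real.pi * t * ‖ξ‖) : ℝ) : ℂ) = c
      rw [Complex.ofReal_neg]
      generalize ((Real.sin (2 * Real.pi * t * ‖ξ‖) : ℝ) : ℂ) = s
      generalize e (inner ℝ x ξ) = E
      generalize 𝓕 (u : EE (n + 1) → ℂ) ξ = w
      have hI : Complex.I * Complex.I = -1 := Complex.I_mul_I
      linear_combination (-(E * s * w)) * h4 + (E * s * w * Z * Y) * hI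

end Pool.Agent.H83.LS.HG
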