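import Pool.Agent.H83.LS.Targets4
import Pool.Agent.H85.LS.ANG
import Pool.Agent.H85.LS.ROT
import Pool.Agent.H85.LS.INVA

/-!
Module WA (explicit version).
-/

set_option autoImplicit false

namespace Pool.Agent.H83.LS.WAm

open MeasureTheory Set FourierTransform Pool.Agent.H83.LS
open scoped ENNReal NNReal SchwartzMap

lemma chi_chis (s : ℝ) : chi s * chis s = chi s := by
  unfold chi chis eta0
  by_cases h1 : s ≤ 1 / 2
  · have e1 : Real.smoothTransition (2 - s) = 1 := Real.smoothTransition.one_of_one_le (by linarith)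
    have e2 : Real.smoothTransition (2 - 2 * s) = 1 := Real.smoothTransition.one_of_one_le (by linarith)
    rw [e1, e2]; ring
  · by_cases h2 : 2 ≤ s
    · have e1 : Real.smoothTransition (2 - s) = 0 := Real.smoothTransition.zero_of_nonpos (by linarith)
      have e2 : Real.smoothTransition (2 - 2 * s) = 0 :=
        Real.smoothTransition.zero_of_nonpos (by linarith)
      rw [e1, e2]; ring
    · push Not at h1 h2
      have e1 : Real.smoothTransition (2 - s / 2) = 1 :=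
        Real.smoothTransition.one_of_one_le (by linarith)
      have e2 : Real.smoothTransition (2 - 4 * s) = 0 :=
        Real.smoothTransition.zero_of_nonpos (by linarith)
      rw [e1, e2]; ring

/-- the data of GA for a finite family -/
lemma mm_eq {n : ℕ} (lam Lam t : ℝ) (hlam : 0 < lam) (g : EE (n + 1) → ℂ)
    (I : EE (n + 1) → ℂ)
    (hg : ∀ ξ, 𝓕 g ξ = ((chi (hor ξ / Lam) * chis (‖ξ‖ / lam) : ℝ) : ℂ) * I ξ) (x : EE (n + 1)) :
    MM (mT lam t) g x = ∫ ξ : EE (n + 1), e (inner ℝ x ξ) * (e (t * ‖ξ‖) *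
      ((chi (‖ξ‖ / lam) * chi (hor ξ / Lam) : ℝ) : ℂ) * I ξ) := by
  unfold MM mT
  congr 1
  funext ξ
  rw [hg ξ]
  have h1 := chi_chis (‖ξ‖ / lam)
  have h2 : ((chi (‖ξ‖ / lam) : ℝ) : ℂ) * ((chi (hor ξ / Lam) * chis (‖ξ‖ / lam) : ℝ) : ℂ) =
      ((chi (‖ξ‖ / lam) * chi (hor ξ / Lam) : ℝ) : ℂ) := by
    rw [← Complex.ofReal_mul]
    congr 1
    linear_combination chi (hor ξ / Lam) * h1
  linear_combination (e (inner ℝ x ξ) * e (t * ‖ξ‖) * I ξ) * h2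

lemma exists_coord {n : ℕ} (hn : 1 ≤ n) (a : EE n) : ∃ i : Fin n, ‖a‖ ≤ n * |a i| := by
  by_contra hcon
  push Not at hcon
  have hn0 : (0 : ℝ) < n := by exact_mod_cast (show 0 < n by omega)
  have h1 : ‖a‖ ^ 2 = ∑ i, |a i| ^ 2 := by
    rw [EuclideanSpace.norm_sq_eq]
    simp [Real.norm_eq_abs]
  have h2 : ∀ i : Fin n, |a i| < ‖a‖ / n := by
    intro i
    rw [lt_div_iff₀ hn0]
    have := hcon i
    linarith
  have h3 : ∑ i : Fin n, |a i| ^ 2 < ∑ i : Fin n, (‖a‖ / n) ^ 2 := by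
    apply Finset.sum_lt_sum_of_nonempty
    · exact ⟨⟨0, by omega⟩, Finset.mem_univ _⟩
    · intro i _
      exact pow_lt_pow_left₀ (h2 i) (abs_nonneg _) (by norm_num)
  rw [← h1, Finset.sum_const, Finset.card_univ, Fintype.card_fin, nsmul_eq_mul, div_pow] at h3
  have h4 : (n : ℝ) * (‖a‖ ^ 2 / (n : ℝ) ^ 2) = ‖a‖ ^ 2 / n := by field_simp
  rw [h4] at h3
  have h5 : ‖a‖ ^ 2 / n ≤ ‖a‖ ^ 2 := by
    apply div_le_self (by positivity)
    exact_mod_cast hn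
  linarith

lemma fourier_sum {d : ℕ} {ι : Type*} (T : Finset ι) (g : ι → EE d → ℂ)
    (hg : ∀ w ∈ T, Integrable (g w)) (ξ : EE d) :
    𝓕 (fun x => ∑ w ∈ T, g w x) ξ = ∑ w ∈ T, 𝓕 (g w) ξ := by
  simp only [Real.fourier_eq]
  rw [← integral_finsetSum T]
  · congr 1
    funext v
    rw [Finset.smul_sum]
  · intro w hw
    exact (Real.fourierIntegral_convergent_iff ξ).2 (hg w hw)

set_option maxHeartbeats 1600000 in
theorem wae (hGA : T_GA) (hANG : T_ANG) (hSTR : T_STRONG) : T_WAe := by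
  intro n p η K hn hp hη
  have hn0 : (0 : ℝ) < n := by exact_mod_cast (show 0 < n by omega)
  have hp1 : 1 ≤ p := by
    have : 0 ≤ 2 / (n : ℝ) := by positivity
    linarith
  have hp0 : 0 ≤ p := by linarith
  obtain ⟨Cs, hCs⟩ := hSTR n p η hn hp hη
  obtain ⟨S, c, hSl, hAN, hang⟩ := hANG n (K + n + 2) (by omega)
  obtain ⟨C0, hC0⟩ := hGA n p hn hp1 (fun y : EE n => ((chis ‖y‖ : ℝ) : ℂ)) Pool.Agent.H85.LS.AN_chis
  choose Cg hCg using fun (i : Fin n) (w : List (Fin n × Fin n)) => hGA n p hn hp1 (c i w) (hAN i w)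
  set N : ℕ := K + n + 2 with hN
  -- total constant for the families
  set Cm : ℝ≥0 := C0 + ∑ i : Fin n, ∑ w ∈ S, Cg i w with hCm
  set D : ℝ≥0 := (S.card + 1 : ℝ≥0) ^ (p - 1) with hD
  set E : ℝ≥0 := Real.toNNReal (((2 * (n : ℝ)) ^ N) ^ p + (2 ^ (n + 2 + K)) ^ p) with hE
  refine ⟨Cs * (D * ((S.card + 1 : ℝ≥0) * Cm)) * E, ?_⟩
  intro lam Lam f a B hlam hLam hLL hB
  have hlam0 : 0 < lam := by linarith
  have hcoe : ((𝓕 f : 𝓢(EE (n + 1), ℂ)) : EE (n + 1) → ℂ) = 𝓕 (f : EE (n + 1) → ℂ) := by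
    rw [SchwartzMap.fourier_coe]
  set Λp : ℝ := lam ^ ((n : ℝ) * (p / 2 - 1) - 1 + η) with hΛp
  have hΛ0 : 0 ≤ Λp := by positivity
  -- the general step
  have gen : ∀ (T : Finset (List (Fin n × Fin n))) (z : ℂ) (I : List (Fin n × Fin n) → EE (n + 1) → ℂ)
      (g : List (Fin n × Fin n) → EE (n + 1) → ℂ) (M : ℝ), T.card ≤ S.card + 1 → z ≠ 0 → 0 ≤ M →
      (∀ w ∈ T, Axial (g w) ∧ Measurable (g w) ∧ Integrable (g w) ∧ (∃ A : ℝ, ∀ x, ‖g w x‖ ≤ A)) →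
      (∀ w ∈ T, ∀ ξ, 𝓕 (g w) ξ = ((chi (hor ξ / Lam) * chis (‖ξ‖ / lam) : ℝ) : ℂ) * I w ξ) →
      (∀ w ∈ T, ∫⁻ x, ‖g w x‖ₑ ^ p ≤ Cm * ENNReal.ofReal M * B) →
      (∀ ξ : EE (n + 1), z * ca (𝓕 (f : EE (n + 1) → ℂ)) a (hor ξ) (ξ (Fin.last n)) =
        ∑ w ∈ T, I w ξ) →
      ∫⁻ t in Icc (1 : ℝ) 2, ∫⁻ x, ‖wa lam Lam t (𝓕 (f : EE (n + 1) → ℂ)) a x‖ₑ ^ p ≤
        ENNReal.ofReal ((‖z‖ ^ p)⁻¹) * (Cs * ENNReal.ofReal Λp *
          (D * ((S.card + 1 : ℝ≥0) * (Cm * ENNReal.ofReal M * B)))) := by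
    intro T z I g M hT hz hM hg1 hg2 hg3 hz2
    set G : EE (n + 1) → ℂ := fun x => ∑ w ∈ T, g w x with hG
    have hGm : Measurable G := Finset.measurable_fun_sum T (fun w hw => (hg1 w hw).2.1)
    have hGi : Integrable G := integrable_finsetSum T (fun w hw => (hg1 w hw).2.2.1)
    have hGa : Axial G := by
      intro x y h1 h2
      exact Finset.sum_congr rfl (fun w hw => (hg1 w hw).1 x y h1 h2)
    have hGb : ∃ A : ℝ, ∀ x, ‖G x‖ ≤ A := by
      have : ∀ w, ∃ A : ℝ, w ∈ T → ∀ x, ‖g w x‖ ≤ A := by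
        intro w
        by_cases hw : w ∈ T
        · obtain ⟨A, hA⟩ := (hg1 w hw).2.2.2
          exact ⟨A, fun _ => hA⟩
        · exact ⟨0, fun h => absurd h hw⟩
      choose A hA using this
      exact ⟨∑ w ∈ T, A w, fun x => (norm_sum_le _ _).trans (Finset.sum_le_sum (fun w hw => hA w hw x))⟩
    have hGF : ∀ ξ, 𝓕 G ξ = ((chi (hor ξ / Lam) * chis (‖ξ‖ / lam) : ℝ) : ℂ) *
        (z * ca (𝓕 (f : EE (n + 1) → ℂ)) a (hor ξ) (ξ (Fin.last n))) := by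
      intro ξ
      rw [hz2 ξ, Finset.mul_sum]
      have h1 : 𝓕 G ξ = ∑ w ∈ T, 𝓕 (g w) ξ :=
        fourier_sum T g (fun w hw => (hg1 w hw).2.2.1) ξ
      rw [h1]
      exact Finset.sum_congr rfl (fun w hw => hg2 w hw ξ)
    have hMMG : ∀ t x, MM (mT lam t) G x = z * wa lam Lam t (𝓕 (f : EE (n + 1) → ℂ)) a x := by
      intro t x
      rw [mm_eq lam Lam t hlam0 G _ hGF x]
      unfold wa
      rw [← integral_const_mul]
      congr 1
      funext ξ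
      ring
    have hzn : 0 < ‖z‖ := norm_pos_iff.mpr hz
    have hpt : ∀ t x, ‖wa lam Lam t (𝓕 (f : EE (n + 1) → ℂ)) a x‖ₑ ^ p =
        ENNReal.ofReal ((‖z‖ ^ p)⁻¹) * ‖MM (mT lam t) G x‖ₑ ^ p := by
      intro t x
      rw [hMMG t x, enorm_mul, ENNReal.mul_rpow_of_nonneg _ _ hp0, ← mul_assoc]
      have h1 : ENNReal.ofReal ((‖z‖ ^ p)⁻¹) * ‖z‖ₑ ^ p = 1 := by
        rw [← ofReal_norm, ENNReal.ofReal_rpow_of_pos hzn, ← ENNReal.ofReal_mul (by positivity),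
          inv_mul_cancel₀ (by positivity), ENNReal.ofReal_one]
      rw [h1, one_mul]
    have hL : ∫⁻ t in Icc (1 : ℝ) 2, ∫⁻ x, ‖wa lam Lam t (𝓕 (f : EE (n + 1) → ℂ)) a x‖ₑ ^ p =
        ENNReal.ofReal ((‖z‖ ^ p)⁻¹) *
          ∫⁻ t in Icc (1 : ℝ) 2, ∫⁻ x, ‖MM (mT lam t) G x‖ₑ ^ p := by
      simp only [hpt]
      have h1 : ∀ t : ℝ, ∫⁻ x, ENNReal.ofReal ((‖z‖ ^ p)⁻¹) * ‖MM (mT lam t) G x‖ₑ ^ p =
          ENNReal.ofReal ((‖z‖ ^ p)⁻¹) * ∫⁻ x, ‖MM (mT lam t) G x‖ₑ ^ p :=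
        fun t => lintegral_const_mul' _ _ ENNReal.ofReal_ne_top
      simp only [h1]
      rw [lintegral_const_mul' _ _ ENNReal.ofReal_ne_top]
    rw [hL]
    gcongr
    refine (hCs lam G hlam hGa hGm hGi hGb).trans ?_
    gcongr
    -- the norm of G
    have h3 : ∀ x, ‖G x‖ₑ ^ p ≤ D * ∑ w ∈ T, ‖g w x‖ₑ ^ p := by
      intro x
      calc ‖G x‖ₑ ^ p ≤ (∑ w ∈ T, ‖g w x‖ₑ) ^ p :=
            ENNReal.rpow_le_rpow (enorm_sum_le _ _) hp0
        _ ≤ (T.card : ℝ≥0∞) ^ (p - 1) * ∑ w ∈ T, ‖g w x‖ₑ ^ p :=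
            ENNReal.rpow_sum_le_const_mul_sum_rpow _ _ hp1
        _ ≤ D * ∑ w ∈ T, ‖g w x‖ₑ ^ p := by
            gcongr
            rw [hD, ENNReal.coe_rpow_of_nonneg _ (by linarith)]
            apply ENNReal.rpow_le_rpow _ (by linarith)
            push_cast
            exact_mod_cast hT
    calc ∫⁻ x, ‖G x‖ₑ ^ p ≤ ∫⁻ x, D * ∑ w ∈ T, ‖g w x‖ₑ ^ p := lintegral_mono h3
      _ = D * ∑ w ∈ T, ∫⁻ x, ‖g w x‖ₑ ^ p := by
          rw [lintegral_const_mul' _ _ ENNReal.coe_ne_top, lintegral_finsetSum']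
          intro w hw
          exact ((hg1 w hw).2.1.enorm.pow_const p).aemeasurable
      _ ≤ D * ∑ w ∈ T, (Cm * ENNReal.ofReal M * B) := by
          gcongr with w hw
          exact hg3 w hw
      _ = D * (T.card * (Cm * ENNReal.ofReal M * B)) := by
          rw [Finset.sum_const, nsmul_eq_mul]
      _ ≤ D * ((S.card + 1 : ℝ≥0) * (Cm * ENNReal.ofReal M * B)) := by
          gcongr
          push_cast
          exact_mod_cast hT
  have hfin : ∀ R : ℝ, 0 ≤ R → R ≤ (((2 * (n : ℝ)) ^ N) ^ p + (2 ^ (n + 2 + K)) ^ p) *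
      (((1 + ‖a‖) ^ K) ^ p)⁻¹ → ∀ z M : ℝ, 0 ≤ z → 0 ≤ M → z * M = R →
      ENNReal.ofReal z * (Cs * ENNReal.ofReal Λp *
          (D * ((S.card + 1 : ℝ≥0) * (Cm * ENNReal.ofReal M * B)))) ≤
      ((Cs * (D * ((S.card + 1 : ℝ≥0) * Cm)) * E : ℝ≥0) : ℝ≥0∞) *
        ENNReal.ofReal (Λp * (((1 + ‖a‖) ^ K) ^ p)⁻¹) * B := by
    intro R hR0 hR z M hz hM hzM
    have h1 : ENNReal.ofReal z * ENNReal.ofReal M ≤ (E : ℝ≥0∞) * ENNReal.ofReal ((((1 + ‖a‖) ^ K) ^ p)⁻¹) := by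
      rw [← ENNReal.ofReal_mul hz, hzM, hE]
      rw [show ((Real.toNNReal (((2 * (n : ℝ)) ^ N) ^ p + (2 ^ (n + 2 + K)) ^ p) : ℝ≥0) : ℝ≥0∞) =
        ENNReal.ofReal (((2 * (n : ℝ)) ^ N) ^ p + (2 ^ (n + 2 + K)) ^ p) from rfl,
        ← ENNReal.ofReal_mul (by positivity)]
      exact ENNReal.ofReal_le_ofReal hR
    calc ENNReal.ofReal z * (Cs * ENNReal.ofReal Λp *
          (D * ((S.card + 1 : ℝ≥0) * (Cm * ENNReal.ofReal M * B))))
        = (ENNReal.ofReal z * ENNReal.ofReal M) * (Cs * ENNReal.ofReal Λp *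
          (D * ((S.card + 1 : ℝ≥0) * (Cm * B)))) := by ring
      _ ≤ ((E : ℝ≥0∞) * ENNReal.ofReal ((((1 + ‖a‖) ^ K) ^ p)⁻¹)) * (Cs * ENNReal.ofReal Λp *
          (D * ((S.card + 1 : ℝ≥0) * (Cm * B)))) := by gcongr
      _ = _ := by
          rw [ENNReal.ofReal_mul hΛ0]
          push_cast
          ring
  by_cases ha : ‖a‖ ≤ 1
  · -- small frequencies of the angular variable
    obtain ⟨g, g1, g2, g3, g4, g5, g6⟩ := hC0 a lam Lam f hLam hLL
    have h1 := gen {([] : List (Fin n × Fin n))} 1 (fun _ ξ => ∫ y : EE n, e (-(inner ℝ a y)) *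
      ((chis ‖y‖ : ℝ) : ℂ) * 𝓕 (f : EE (n + 1) → ℂ) (jo ((hor ξ / ‖y‖) • y) (ξ (Fin.last n))))
      (fun _ => g) (((1 + ‖a‖) ^ (n + 2)) ^ p) (by simp) one_ne_zero (by positivity)
      (fun w _ => ⟨g1, g2, g3, g4⟩) (fun w _ => g5) ?_ ?_
    · refine h1.trans ?_
      apply hfin ((((1 + ‖a‖) ^ (n + 2)) ^ p)) (by positivity) ?_ _ _ (by positivity) (by positivity)
      · simp
      · rw [← div_eq_mul_inv, le_div_iff₀ (by positivity), ← Real.mul_rpow (by positivity) (by positivity),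
          ← pow_add]
        have h2 : ((1 + ‖a‖) ^ (n + 2 + K)) ^ p ≤ (2 ^ (n + 2 + K)) ^ p := by
          apply Real.rpow_le_rpow (by positivity) _ hp0
          apply pow_le_pow_left₀ (by positivity)
          linarith
        have h3 : 0 ≤ ((2 * (n : ℝ)) ^ N) ^ p := by positivity
        linarith
    · intro w _
      refine g6.trans ?_
      have h2 : ∫⁻ x, ‖f x‖ₑ ^ p ≤ B := hB [] (by simp)
      have h3 : (C0 : ℝ≥0∞) ≤ Cm := by
        rw [hCm]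
        exact_mod_cast le_self_add
      gcongr
    · intro ξ
      simp [ca]
  · push Not at ha
    obtain ⟨i, hi⟩ := exists_coord (by omega) a
    have hai : 0 < |a i| := by
      by_contra hcon
      push Not at hcon
      have : (n : ℝ) * |a i| ≤ 0 := mul_nonpos_of_nonneg_of_nonpos hn0.le hcon
      linarith
    set z : ℂ := (2 * Real.pi * Complex.I * (a i : ℂ)) ^ N with hz
    have hzn : ‖z‖ = (2 * Real.pi * |a i|) ^ N := by
      rw [hz, norm_pow]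
      congr 1
      simp [abs_of_pos Real.pi_pos]
    have hz0 : z ≠ 0 := by
      rw [← norm_pos_iff, hzn]
      positivity
    have hF : ∀ w : List (Fin n × Fin n), ((𝓕 (Pool.Agent.H85.LS.RW w f) : 𝓢(EE (n + 1), ℂ)) : EE (n + 1) → ℂ) =
        rotW w (𝓕 f : 𝓢(EE (n + 1), ℂ)) := by
      intro w
      rw [Pool.Agent.H85.LS.fourier_RW, Pool.Agent.H85.LS.RW_coe]
    choose g g1 g2 g3 g4 g5 g6 using fun w : List (Fin n × Fin n) =>
      hCg i w a lam Lam (Pool.Agent.H85.LS.RW w f) hLam hLL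
    have h1 := gen S z (fun w ξ => ∫ y : EE n, e (-(inner ℝ a y)) * c i w y *
      rotW w (𝓕 f : 𝓢(EE (n + 1), ℂ)) (jo ((hor ξ / ‖y‖) • y) (ξ (Fin.last n))))
      g (((1 + ‖a‖) ^ (n + 2)) ^ p) (by simp) hz0 (by positivity)
      (fun w _ => ⟨g1 w, g2 w, g3 w, g4 w⟩) ?_ ?_ ?_
    · refine h1.trans ?_
      apply hfin ((‖z‖ ^ p)⁻¹ * (((1 + ‖a‖) ^ (n + 2)) ^ p)) (by positivity) ?_ _ _ (by positivity)
        (by positivity) rfl
      have h2 : (1 + ‖a‖) ≤ 2 * n * (2 * Real.pi * |a i|) := by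
        have hpi : 3 < Real.pi := Real.pi_gt_three
        have h3 : (n : ℝ) * |a i| * 1 ≤ (n : ℝ) * |a i| * (2 * Real.pi) := by
          apply mul_le_mul_of_nonneg_left _ (by positivity)
          linarith
        nlinarith
      have h4 : (1 + ‖a‖) ^ N ≤ (2 * n) ^ N * ‖z‖ := by
        rw [hzn, ← mul_pow]
        exact pow_le_pow_left₀ (by positivity) h2 N
      have hzpos : 0 < ‖z‖ := norm_pos_iff.mpr hz0
      rw [← div_eq_mul_inv, le_div_iff₀ (by positivity)]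
      have h5 : (‖z‖ ^ p)⁻¹ * ((1 + ‖a‖) ^ (n + 2)) ^ p * ((1 + ‖a‖) ^ K) ^ p ≤ ((2 * (n : ℝ)) ^ N) ^ p := by
        rw [mul_assoc, ← Real.mul_rpow (by positivity) (by positivity), ← pow_add,
          inv_mul_eq_div, div_le_iff₀ (by positivity), ← Real.mul_rpow (by positivity) (by positivity)]
        apply Real.rpow_le_rpow (by positivity) _ hp0
        have e1 : n + 2 + K = N := by omega
        rw [e1]
        exact h4
      have h6 : (0 : ℝ) ≤ (2 ^ (n + 2 + K)) ^ p := by positivity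
      linarith
    · intro w _ ξ
      rw [g5 w ξ]
      congr 1
      rw [← hF w, SchwartzMap.fourier_coe]
    · intro w hw
      refine (g6 w).trans ?_
      have h2 : ∫⁻ x, ‖Pool.Agent.H85.LS.RW w f x‖ₑ ^ p ≤ B := by
        have := hB w (hSl w hw)
        rw [← Pool.Agent.H85.LS.RW_coe] at this
        exact this
      have h3 : (Cg i w : ℝ≥0∞) ≤ Cm := by
        rw [hCm]
        norm_cast
        calc Cg i w ≤ ∑ w ∈ S, Cg i w := Finset.single_le_sum (f := fun w => Cg i w) (fun _ _ => bot_le) hw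
          _ ≤ ∑ i : Fin n, ∑ w ∈ S, Cg i w :=
              Finset.single_le_sum (f := fun i => ∑ w ∈ S, Cg i w) (fun _ _ => bot_le) (Finset.mem_univ i)
          _ ≤ C0 + ∑ i : Fin n, ∑ w ∈ S, Cg i w := le_add_self
      gcongr
    · intro ξ
      rw [← hcoe]
      exact hang (𝓕 f : 𝓢(EE (n + 1), ℂ)) a (hor ξ) (ξ (Fin.last n)) i

end Pool.Agent.H83.LS.WAm
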