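import Pool.Agent.H14.LS.Main3
import Pool.Agent.H57.LS.RED1
import Pool.Agent.H54.LS.Sph
import Pool.Agent.H83.LS.WA

/-!
Module PIECE.
-/

set_option autoImplicit false

namespace Pool.Agent.H83.LS.PIEm

open MeasureTheory Set FourierTransform Filter
open scoped ENNReal NNReal
open Pool.Agent.H83.LS

variable {n : ℕ}

/-- restriction to a set of distances from the axis -/
noncomputable def cutR (R : Set ℝ) (f : EE (n + 1) → ℂ) : EE (n + 1) → ℂ :=
  {x | hor x ∈ R}.indicator f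

lemma hor_meas : Measurable (hor : EE (n + 1) → ℝ) := Pool.Agent.H54.LS.continuous_hor.measurable

lemma cut_axial {R : Set ℝ} {f : EE (n + 1) → ℂ} (hf : Axial f) : Axial (cutR R f) := by
  intro x y h1 h2
  have h3 : hor x = hor y := Pool.Agent.H14.LS.hor_eq_of h1 h2
  unfold cutR
  by_cases hx : hor x ∈ R
  · have hy : hor y ∈ R := by rw [← h3]; exact hx
    rw [indicator_of_mem (show x ∈ {x | hor x ∈ R} from hx),
      indicator_of_mem (show y ∈ {x | hor x ∈ R} from hy), hf x y h1 h2]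
  · have hy : hor y ∉ R := by rw [← h3]; exact hx
    rw [indicator_of_notMem (show x ∉ {x | hor x ∈ R} from hx),
      indicator_of_notMem (show y ∉ {x | hor x ∈ R} from hy)]

lemma cut_bcd {R : Set ℝ} (hR : MeasurableSet R) {A : ℝ} {f : EE (n + 1) → ℂ} (hf : BCd A f) :
    BCd A (cutR R f) :=
  Pool.Agent.H14.LS.bcd_ind hf (hor_meas hR)

lemma hor_pt (hn : 2 ≤ n) {ρ z : ℝ} (hρ : 0 ≤ ρ) : hor (pt n ρ z) = ρ := by
  unfold hor
  rw [Pool.Agent.H57.LS.norm_pt_sq n hn, Pool.Agent.H57.LS.pt_last n hn]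
  rw [show ρ ^ 2 + z ^ 2 - z ^ 2 = ρ ^ 2 by ring, Real.sqrt_sq hρ]

lemma ax_pt (hn : 2 ≤ n) {f : EE (n + 1) → ℂ} (hf : Axial f) (x : EE (n + 1)) :
    f x = f (pt n (hor x) (x (Fin.last n))) := by
  apply hf
  · rw [Pool.Agent.H57.LS.pt_last n hn]
  · have h1 := Pool.Agent.H54.LS.norm_sq_eq x
    have h2 := Pool.Agent.H57.LS.norm_pt_sq n hn (hor x) (x (Fin.last n))
    rw [← Real.sqrt_sq (norm_nonneg x), ← Real.sqrt_sq (norm_nonneg (pt n (hor x) (x (Fin.last n)))),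
      h1, h2]

lemma meas_PU (lam Lam t : ℝ) (F : ℝ × ℝ → ℂ) (hF : Measurable F) :
    Measurable (PU n lam Lam t F) := by
  unfold PU
  apply StronglyMeasurable.measurable
  apply StronglyMeasurable.integral_prod_right
    (f := fun (y : ℝ × ℝ) (ζ : ℝ × ℝ) => e (y.2 * ζ.2 + t * Real.sqrt (ζ.1 ^ 2 + ζ.2 ^ 2)) *
    ((chi (Real.sqrt (ζ.1 ^ 2 + ζ.2 ^ 2) / lam) * chi (ζ.1 / Lam) * bj n (y.1 * ζ.1) : ℝ) : ℂ) *
    PH n F ζ)
  apply Measurable.stronglyMeasurable
  apply Measurable.mul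
  · apply Measurable.mul
    · exact measurable_e.comp (by fun_prop)
    · apply Complex.measurable_ofReal.comp
      apply Measurable.mul
      · apply Measurable.mul
        · exact Pool.Agent.H14.LS.chi_smooth.continuous.measurable.comp (by fun_prop)
        · exact Pool.Agent.H14.LS.chi_smooth.continuous.measurable.comp (by fun_prop)
      · exact (Pool.Agent.H57.LS.measurable_bj n).comp (by fun_prop)
  · exact (Pool.Agent.H57.LS.measurable_PH F hF).comp measurable_snd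

/-- transfer of `L^p` norms to profiles -/
lemma transfer (hRED1 : T_RED1) (hPOL : T_POL) (hn : 2 ≤ n) (p : ℝ) (hp : 0 ≤ p) :
    ∃ K : ℝ≥0, ∀ (lam Lam t A : ℝ) (f : EE (n + 1) → ℂ) (R : Set ℝ), 0 < lam → 0 < Lam →
    Axial f → BCd A f → MeasurableSet R →
    ∫⁻ x in {x : EE (n + 1) | hor x ∈ R}, ‖MM (Pool.Agent.H14.LS.mj n lam Lam t) f x‖ₑ ^ p ≤
      K * ∫⁻ z : ℝ, ∫⁻ ρ in Ioi (0 : ℝ), R.indicator 1 ρ *
        (‖PU n lam Lam t (FF n f) (ρ, z)‖ₑ ^ p *
          ENNReal.ofReal (ρ ^ (-(((n : ℝ) - 1) * (p / 2 - 1))))) := by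
  obtain ⟨c, hc0, hc⟩ := hRED1 n hn
  obtain ⟨c', hc'0, hc'⟩ := hPOL n hn
  refine ⟨Real.toNNReal c' * Real.toNNReal (c ^ p), ?_⟩
  intro lam Lam t A f R hlam hLam hf hA hR
  have hFm : Measurable (FF n f) := (Pool.Agent.H57.LS.FF_props hn A f hA).1
  set P : ℝ × ℝ → ℝ≥0∞ := fun y => ‖PU n lam Lam t (FF n f) y‖ₑ ^ p with hP
  have hPm : Measurable P := (meas_PU lam Lam t (FF n f) hFm).enorm.pow_const _
  set h : ℝ × ℝ → ℝ≥0∞ := fun y => R.indicator 1 y.1 * (if y.1 = 0 then ⊤ else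
    ENNReal.ofReal (c ^ p) * (P y * ENNReal.ofReal (y.1 ^ (-((((n : ℝ) - 1) / 2) * p))))) with hh
  have hhm : Measurable h := by
    apply Measurable.mul
    · exact (measurable_one.indicator hR).comp measurable_fst
    · apply Measurable.ite (measurableSet_eq_fun measurable_fst measurable_const) measurable_const
      apply Measurable.const_mul
      exact hPm.mul ((measurable_fst.pow_const _).ennreal_ofReal)
  have hmeasS : MeasurableSet {x : EE (n + 1) | hor x ∈ R} := hor_meas hR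
  have hpt : ∀ x : EE (n + 1), {x : EE (n + 1) | hor x ∈ R}.indicator
      (fun x => ‖MM (Pool.Agent.H14.LS.mj n lam Lam t) f x‖ₑ ^ p) x ≤ h (hor x, x (Fin.last n)) := by
    intro x
    by_cases hx : hor x ∈ R
    · rw [indicator_of_mem (show x ∈ {x : EE (n + 1) | hor x ∈ R} from hx)]
      simp only [hh]
      rw [indicator_of_mem hx]
      simp only [Pi.one_apply, one_mul]
      split_ifs with h0
      · exact le_top
      · have hpos : 0 < hor x := lt_of_le_of_ne (Pool.Agent.H54.LS.hor_nonneg x) (Ne.symm h0)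
        have h1 := hc lam Lam t A f hlam hLam hf hA x
        have h1' : (((hor x) ^ (((n : ℝ) - 1) / 2) : ℝ) : ℂ) *
            MM (Pool.Agent.H14.LS.mj n lam Lam t) f x =
            (c : ℂ) * PU n lam Lam t (FF n f) (hor x, x (Fin.last n)) := h1
        have h2 : ‖MM (Pool.Agent.H14.LS.mj n lam Lam t) f x‖ₑ =
            ENNReal.ofReal c * ‖PU n lam Lam t (FF n f) (hor x, x (Fin.last n))‖ₑ *
              ENNReal.ofReal ((hor x) ^ (-(((n : ℝ) - 1) / 2))) := by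
          have h3 := congrArg (fun z : ℂ => ‖z‖ₑ) h1'
          simp only [enorm_mul] at h3
          have e1 : ‖(((hor x) ^ (((n : ℝ) - 1) / 2) : ℝ) : ℂ)‖ₑ =
              ENNReal.ofReal ((hor x) ^ (((n : ℝ) - 1) / 2)) := by
            rw [← ofReal_norm, Complex.norm_real, Real.norm_of_nonneg (by positivity)]
          have e2 : ‖(c : ℂ)‖ₑ = ENNReal.ofReal c := by
            rw [← ofReal_norm, Complex.norm_real, Real.norm_of_nonneg hc0.le]
          rw [e1, e2] at h3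
          rw [← h3]
          have e3 : ENNReal.ofReal ((hor x) ^ (((n : ℝ) - 1) / 2)) *
              ENNReal.ofReal ((hor x) ^ (-(((n : ℝ) - 1) / 2))) = 1 := by
            rw [← ENNReal.ofReal_mul (by positivity), ← Real.rpow_add hpos, add_neg_cancel,
              Real.rpow_zero, ENNReal.ofReal_one]
          calc ‖MM (Pool.Agent.H14.LS.mj n lam Lam t) f x‖ₑ
              = (ENNReal.ofReal ((hor x) ^ (((n : ℝ) - 1) / 2)) *
              ENNReal.ofReal ((hor x) ^ (-(((n : ℝ) - 1) / 2)))) *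
              ‖MM (Pool.Agent.H14.LS.mj n lam Lam t) f x‖ₑ := by rw [e3, one_mul]
            _ = _ := by ring
        rw [h2, ENNReal.mul_rpow_of_nonneg _ _ hp, ENNReal.mul_rpow_of_nonneg _ _ hp,
          ENNReal.ofReal_rpow_of_nonneg hc0.le hp, ENNReal.ofReal_rpow_of_nonneg (by positivity) hp,
          ← Real.rpow_mul hpos.le, mul_assoc]
        rw [show -(((n : ℝ) - 1) / 2) * p = -((((n : ℝ) - 1) / 2) * p) by ring]
    · rw [indicator_of_notMem (show x ∉ {x : EE (n + 1) | hor x ∈ R} from hx)]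
      exact bot_le
  rw [← lintegral_indicator hmeasS]
  refine (lintegral_mono hpt).trans ?_
  rw [hc' h hhm]
  have hK : ((Real.toNNReal c' * Real.toNNReal (c ^ p) : ℝ≥0) : ℝ≥0∞) =
      ENNReal.ofReal c' * ENNReal.ofReal (c ^ p) := by
    push_cast
    rfl
  rw [hK, mul_assoc]
  gcongr
  rw [← lintegral_const_mul' _ _ ENNReal.ofReal_ne_top]
  apply lintegral_mono
  intro z
  simp only
  rw [← lintegral_const_mul' _ _ ENNReal.ofReal_ne_top]
  apply setLIntegral_mono' measurableSet_Ioi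
  intro ρ hρ
  have hρ' : (0 : ℝ) < ρ := hρ
  simp only [hh, hP]
  rw [if_neg hρ'.ne']
  have e4 : ENNReal.ofReal (ρ ^ (-((((n : ℝ) - 1) / 2) * p))) * ENNReal.ofReal (ρ ^ (n - 1)) =
      ENNReal.ofReal (ρ ^ (-(((n : ℝ) - 1) * (p / 2 - 1)))) := by
    rw [← ENNReal.ofReal_mul (by positivity), ← Real.rpow_natCast, ← Real.rpow_add hρ']
    congr 2
    rw [Nat.cast_sub (by omega)]
    push_cast
    ring
  rw [← e4]
  apply le_of_eq
  ring

/-- `L²` norms of profiles -/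
lemma l2FF (hPOL : T_POL) (hn : 2 ≤ n) : ∃ K : ℝ≥0, ∀ (A : ℝ) (f : EE (n + 1) → ℂ),
    Axial f → BCd A f → ∫⁻ y, ‖FF n f y‖ₑ ^ 2 ≤ K * ∫⁻ x, ‖f x‖ₑ ^ 2 := by
  obtain ⟨c', hc'0, hc'⟩ := hPOL n hn
  refine ⟨Real.toNNReal (c'⁻¹), ?_⟩
  intro A f hf hA
  have hFm : Measurable (FF n f) := (Pool.Agent.H57.LS.FF_props hn A f hA).1
  have hm : Measurable (fun y : ℝ × ℝ => ‖f (pt n y.1 y.2)‖ₑ ^ 2) :=
    (hA.1.comp (Pool.Agent.H57.LS.continuous_pt n).measurable).enorm.pow_const _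
  have h1 := hc' _ hm
  have h2 : ∫⁻ x : EE (n + 1), ‖f x‖ₑ ^ 2 =
      ∫⁻ x : EE (n + 1), ‖f (pt n (hor x) (x (Fin.last n)))‖ₑ ^ 2 := by
    congr 1
    funext x
    rw [← ax_pt hn hf x]
  rw [h2, h1]
  have hK : ((Real.toNNReal (c'⁻¹) : ℝ≥0) : ℝ≥0∞) = ENNReal.ofReal (c'⁻¹) := rfl
  rw [hK, ← mul_assoc, ← ENNReal.ofReal_mul (by positivity), inv_mul_cancel₀ hc'0.ne',
    ENNReal.ofReal_one, one_mul, Measure.volume_eq_prod,
    lintegral_prod_symm' _ (hFm.enorm.pow_const _)]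
  apply lintegral_mono
  intro z
  simp only
  rw [← lintegral_indicator measurableSet_Ioi]
  apply lintegral_mono
  intro ρ
  by_cases hρ : 0 < ρ
  · simp only
    rw [indicator_of_mem (show ρ ∈ Ioi (0 : ℝ) from hρ)]
    unfold FF
    rw [if_pos hρ, enorm_mul, mul_pow, mul_comm]
    gcongr
    rw [← ofReal_norm, Complex.norm_real, Real.norm_of_nonneg (by positivity),
      ← ENNReal.ofReal_pow (by positivity), ← Real.rpow_natCast, ← Real.rpow_mul hρ.le,
      ← Real.rpow_natCast]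
    apply ENNReal.ofReal_le_ofReal
    apply le_of_eq
    congr 1
    rw [Nat.cast_sub (by omega)]
    push_cast
    ring
  · simp only
    unfold FF
    rw [if_neg hρ]
    simp

/-- profiles of functions supported in a set of distances -/
lemma PF_cut (hn : 2 ≤ n) {A D : ℝ} {f : EE (n + 1) → ℂ} (hA : BCd A f) (hD : 0 < D)
    (hs : ∀ x, f x ≠ 0 → hor x ≤ D) : PF (D ^ (((n : ℝ) - 1) / 2) * A) (FF n f) := by
  obtain ⟨h1, A', R', hA'0, hR'0, h2, h3⟩ := Pool.Agent.H57.LS.FF_props hn A f hA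
  have hA0 : 0 ≤ A := Pool.Agent.H14.LS.bcd_nonneg hA
  have hn' : (0 : ℝ) ≤ ((n : ℝ) - 1) / 2 := by
    have : (2 : ℝ) ≤ n := by exact_mod_cast hn
    linarith
  refine ⟨h1, fun y => ?_, fun y hy => (h3 y hy).1, R', fun y hy => ?_⟩
  · by_cases h0 : FF n f y = 0
    · rw [h0, norm_zero]; positivity
    · have hy := (h3 y h0).1
      unfold FF at h0 ⊢
      rw [if_pos hy] at h0 ⊢
      have h4 := hs _ (right_ne_zero_of_mul h0)
      rw [hor_pt hn hy.le] at h4
      rw [norm_mul, Complex.norm_real, Real.norm_of_nonneg (by positivity)]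
      exact mul_le_mul (Real.rpow_le_rpow hy.le h4 hn') (hA.2.1 _) (norm_nonneg _) (by positivity)
  · by_contra h0
    exact absurd (h3 y h0).2.2 (not_le.mpr hy)

/-- the dyadic shells -/
noncomputable def RR (Lam : ℝ) (j : ℕ) : Set ℝ :=
  if j = 0 then Iio (2 / Lam) else Ico (2 ^ j / Lam) (2 ^ (j + 1) / Lam)

lemma RR_meas (Lam : ℝ) (j : ℕ) : MeasurableSet (RR Lam j) := by
  unfold RR
  split_ifs
  · exact measurableSet_Iio
  · exact measurableSet_Ico

lemma RR_sum {Lam : ℝ} (hL : 0 < Lam) (f : EE (n + 1) → ℂ) (J : ℕ) (x : EE (n + 1)) :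
    ∑ j ∈ Finset.range (J + 1), cutR (RR Lam j) f x = cutR (Iio (2 ^ (J + 1) / Lam)) f x := by
  induction J with
  | zero => simp [RR]
  | succ J ih =>
    rw [Finset.sum_range_succ, ih]
    have h1 : (2 : ℝ) ^ (J + 1) / Lam ≤ 2 ^ (J + 1 + 1) / Lam := by
      apply div_le_div_of_nonneg_right _ hL.le
      exact pow_le_pow_right₀ (by norm_num) (by omega)
    unfold cutR RR
    rw [if_neg (by omega)]
    by_cases h2 : hor x < 2 ^ (J + 1) / Lam
    · rw [indicator_of_mem (show x ∈ {x | hor x ∈ Iio ((2 : ℝ) ^ (J + 1) / Lam)} from h2),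
        indicator_of_notMem, indicator_of_mem, add_zero]
      · exact lt_of_lt_of_le h2 h1
      · intro h3
        exact absurd h3.1 (not_le.mpr h2)
    · rw [indicator_of_notMem (show x ∉ {x | hor x ∈ Iio ((2 : ℝ) ^ (J + 1) / Lam)} from h2),
        zero_add]
      push Not at h2
      by_cases h3 : hor x < 2 ^ (J + 1 + 1) / Lam
      · rw [indicator_of_mem, indicator_of_mem]
        · exact h3
        · exact ⟨h2, h3⟩
      · rw [indicator_of_notMem, indicator_of_notMem]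
        · exact h3
        · intro h4
          exact h3 h4.2

lemma MM_sum {lam Lam : ℝ} (hl : 0 < lam) (t : ℝ) {A : ℝ} {f : EE (n + 1) → ℂ} (hA : BCd A f)
    (J : ℕ) (R : ℕ → Set ℝ) (hR : ∀ j, MeasurableSet (R j))
    (hf : ∀ x, f x = ∑ j ∈ Finset.range J, cutR (R j) f x) (x : EE (n + 1)) :
    MM (Pool.Agent.H14.LS.mj n lam Lam t) f x =
      ∑ j ∈ Finset.range J, MM (Pool.Agent.H14.LS.mj n lam Lam t) (cutR (R j) f) x := by
  have hi : ∀ j, Integrable (cutR (R j) f) := fun j => Pool.Agent.H14.LS.bcd_int (cut_bcd (hR j) hA)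
  have h1 : ∀ ξ, 𝓕 f ξ = ∑ j ∈ Finset.range J, 𝓕 (cutR (R j) f) ξ := by
    intro ξ
    rw [← WAm.fourier_sum (Finset.range J) (fun j => cutR (R j) f) (fun j _ => hi j) ξ]
    have h2 : f = fun x => ∑ j ∈ Finset.range J, cutR (R j) f x := funext hf
    exact congrArg (fun g : EE (n + 1) → ℂ => 𝓕 g ξ) h2
  unfold MM
  rw [← integral_finsetSum _ (fun j _ => Pool.Agent.H14.LS.sym_int2
    (Pool.Agent.H14.LS.mj_int n hl _ t) (hi j) x)]
  congr 1
  funext ξ
  rw [h1 ξ, Finset.mul_sum, Finset.mul_sum]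

lemma int_sum {d : ℕ} (g : ℕ → ℝ → EE d → ℝ≥0∞)
    (hg : ∀ j, Measurable fun q : ℝ × EE d => g j q.1 q.2) (N : ℕ) (c : ℝ≥0∞) (hc : c ≠ ⊤) :
    ∫⁻ t in Icc (1 : ℝ) 2, ∫⁻ x, c * ∑ j ∈ Finset.range N, g j t x =
      c * ∑ j ∈ Finset.range N, ∫⁻ t in Icc (1 : ℝ) 2, ∫⁻ x, g j t x := by
  have h8 : ∀ t : ℝ, ∫⁻ x, c * ∑ j ∈ Finset.range N, g j t x =
      c * ∑ j ∈ Finset.range N, ∫⁻ x, g j t x := by
    intro t
    rw [lintegral_const_mul' _ _ hc, lintegral_finsetSum]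
    intro j _
    have := (hg j).comp (measurable_prodMk_left (x := t))
    exact this
  simp only [h8]
  rw [lintegral_const_mul' _ _ hc, lintegral_finsetSum]
  intro j _
  exact (hg j).lintegral_prod_right'

theorem piece (hPC0 : T_PC0) (hPC1 : T_PC1) (hPC2 : T_PC2) (hRED1 : T_RED1) (hPOL : T_POL) :
    T_PIECE := by
  intro n p η hn hp2 hpn hη
  have hn2 : (2 : ℝ) ≤ n := by exact_mod_cast hn
  have hp3 : p ≤ 3 := by
    have : 2 / (n : ℝ) ≤ 1 := by rw [div_le_one (by linarith)]; exact hn2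
    linarith
  have hp0 : 0 ≤ p := by linarith
  set s : ℝ := ((n : ℝ) - 1) / 2 with hs
  set β : ℝ := ((n : ℝ) - 1) * (p / 2 - 1) with hβ
  have hs0 : 0 ≤ s := by rw [hs]; linarith
  have hβ0 : 0 ≤ β := by
    rw [hβ]
    exact mul_nonneg (by linarith) (by linarith)
  have hnp : (n : ℝ) * (p / 2 - 1) ≤ 1 := by
    have h1 : p / 2 - 1 ≤ 1 / n := by
      have : p / 2 ≤ (2 + 2 / (n : ℝ)) / 2 := by linarith
      have h2 : (2 + 2 / (n : ℝ)) / 2 = 1 + 1 / n := by field_simp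
      linarith
    calc (n : ℝ) * (p / 2 - 1) ≤ n * (1 / n) := mul_le_mul_of_nonneg_left h1 (by linarith)
      _ = 1 := by field_simp
  have hβ1 : β < 1 := by rw [hβ]; nlinarith
  have hβ2 : β ≤ 2 - p / 2 := by rw [hβ]; nlinarith
  have hsβ : s * (p - 2) = β := by rw [hs, hβ]; ring
  obtain ⟨K, hK⟩ := transfer hRED1 hPOL hn p hp0
  obtain ⟨K2, hK2⟩ := l2FF hPOL hn
  obtain ⟨C0, hC0⟩ := hPC0 n p η hn hp2 hp3 hη
  obtain ⟨C1, hC1⟩ := hPC1 n p β (η / 2) hn hp2 hp3 hβ0 hβ1 hβ2 (by linarith)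
  obtain ⟨C2, hC2⟩ := hPC2 n p β (η / 2) hn hp2 hp3 hβ0 hβ1 (by linarith)
  obtain ⟨Cc, hCc⟩ := Pool.Agent.H14.LS.count (η := η / 2) (q := p + 1) (by linarith) (by linarith)
  set b2 : ℝ≥0 := Real.toNNReal (2 ^ β) with hb2
  have hb2' : (b2 : ℝ≥0∞) = ENNReal.ofReal (2 ^ β) := rfl
  set Ctot : ℝ≥0 := K * C0 * b2 * K2 + (Cc * Real.toNNReal (48 ^ (η / 2))) * (K * (C1 + C2) * b2 * K2)
    with hCtot
  have hCt1 : ((K * C0 * b2 * K2 : ℝ≥0) : ℝ≥0∞) ≤ (Ctot : ℝ≥0∞) := by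
    rw [hCtot]
    exact ENNReal.coe_le_coe.mpr (le_add_of_nonneg_right (by positivity))
  have hCt2 : (((Cc * Real.toNNReal (48 ^ (η / 2))) * (K * (C1 + C2) * b2 * K2) : ℝ≥0) : ℝ≥0∞) ≤
      (Ctot : ℝ≥0∞) := by
    rw [hCtot]
    exact ENNReal.coe_le_coe.mpr (le_add_of_nonneg_left (by positivity))
  clear_value Ctot
  refine ⟨Ctot, ?_⟩
  intro lam Lam A f hlam hLam hLL hf hA
  have hlam0 : 0 < lam := by linarith
  have hLam0 : 0 < Lam := by linarith
  have hA0 : 0 ≤ A := Pool.Agent.H14.LS.bcd_nonneg hA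
  have hAp : 0 ≤ A ^ (p - 2) := by positivity
  constructor
  · -- near the axis
    intro hsupp
    obtain ⟨J, hJ1, hJ2⟩ := exists_nat_pow_near (x := 24 * Lam) (y := (2 : ℝ)) (by linarith)
      (by norm_num)
    obtain ⟨M, hM1, hM2, hM3⟩ := hCc (48 * lam) (by linarith)
    have hJM : J ≤ M := by
      have h1 : (2 : ℝ) ^ J ≤ 2 ^ M := by linarith
      exact (pow_le_pow_iff_right₀ (by norm_num : (1 : ℝ) < 2)).mp h1
    have hJc : ((J : ℝ) + 1) ^ (p + 1) ≤ (Cc : ℝ) * (48 ^ (η / 2) * lam ^ (η / 2)) := by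
      rw [← Real.mul_rpow (by norm_num) hlam0.le]
      refine le_trans (Real.rpow_le_rpow (by positivity) ?_ (by linarith)) hM3
      have : (J : ℝ) ≤ M := by exact_mod_cast hJM
      linarith
    have hdec : ∀ x, f x = ∑ j ∈ Finset.range (J + 1), cutR (RR Lam j) f x := by
      intro x
      rw [RR_sum hLam0]
      unfold cutR
      by_cases h0 : f x = 0
      · rw [h0]
        symm
        by_cases hx : x ∈ {x | hor x ∈ Iio ((2 : ℝ) ^ (J + 1) / Lam)}
        · rw [indicator_of_mem hx, h0]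
        · rw [indicator_of_notMem hx]
      · rw [indicator_of_mem]
        have h1 := hsupp x h0
        change hor x < 2 ^ (J + 1) / Lam
        rw [lt_div_iff₀ hLam0]
        nlinarith
    -- one piece
    have one : ∀ j ∈ Finset.range (J + 1),
        ∫⁻ t in Icc (1 : ℝ) 2, ∫⁻ x, ‖MM (Pool.Agent.H14.LS.mj n lam Lam t) (cutR (RR Lam j) f) x‖ₑ ^ p ≤
          K * ((C1 + C2) * ENNReal.ofReal (lam ^ (η / 2) * (2 ^ β * A ^ (p - 2))) *
            (K2 * ∫⁻ x, ‖f x‖ₑ ^ 2)) := by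
      intro j hj
      set g : EE (n + 1) → ℂ := cutR (RR Lam j) f with hg
      have hgA : BCd A g := cut_bcd (RR_meas Lam j) hA
      have hgx : Axial g := cut_axial hf
      have h1 : ∀ t, ∫⁻ x, ‖MM (Pool.Agent.H14.LS.mj n lam Lam t) g x‖ₑ ^ p ≤
          K * ∫⁻ z : ℝ, ∫⁻ ρ in Ioi (0 : ℝ), ‖PU n lam Lam t (FF n g) (ρ, z)‖ₑ ^ p *
          ENNReal.ofReal (ρ ^ (-β)) := by
        intro t
        have h2 := hK lam Lam t A g univ hlam0 hLam0 hgx hgA MeasurableSet.univ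
        simp only [mem_univ, indicator_univ, Pi.one_apply, one_mul] at h2
        rw [show {x : EE (n + 1) | True} = univ from rfl, Measure.restrict_univ] at h2
        exact h2
      have h3 : ∫⁻ t in Icc (1 : ℝ) 2, ∫⁻ x, ‖MM (Pool.Agent.H14.LS.mj n lam Lam t) g x‖ₑ ^ p ≤
          K * ∫⁻ t in Icc (1 : ℝ) 2, ∫⁻ z : ℝ, ∫⁻ ρ in Ioi (0 : ℝ),
            ‖PU n lam Lam t (FF n g) (ρ, z)‖ₑ ^ p * ENNReal.ofReal (ρ ^ (-β)) := by
        rw [← lintegral_const_mul' _ _ ENNReal.coe_ne_top]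
        exact lintegral_mono h1
      refine h3.trans ?_
      gcongr
      have hl2 : ∫⁻ y, ‖FF n g y‖ₑ ^ 2 ≤ K2 * ∫⁻ x, ‖f x‖ₑ ^ 2 := by
        refine (hK2 A g hgx hgA).trans ?_
        gcongr with x
        rw [hg]
        unfold cutR
        by_cases hx : x ∈ {x | hor x ∈ RR Lam j}
        · rw [indicator_of_mem hx]
        · rw [indicator_of_notMem hx]
          simp
      have hgs : ∀ x, g x ≠ 0 → hor x ∈ RR Lam j := by
        intro x hx
        by_contra h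
        exact hx (indicator_of_notMem (show x ∉ {x | hor x ∈ RR Lam j} from h) f)
      by_cases hj0 : j = 0
      · -- the core
        have hgs' : ∀ x, g x ≠ 0 → hor x ≤ 2 / Lam := by
          intro x hx
          have := hgs x hx
          unfold RR at this
          rw [if_pos hj0] at this
          exact le_of_lt this
        have hPF := PF_cut hn hgA (by positivity : 0 < 2 / Lam) hgs'
        have h4 := hC2 lam Lam _ (FF n g) hlam hLam0 hLL hPF
        refine h4.trans ?_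
        have e1 : lam ^ (η / 2) * Lam ^ β * ((2 / Lam) ^ (((n : ℝ) - 1) / 2) * A) ^ (p - 2) =
            lam ^ (η / 2) * (2 ^ β * A ^ (p - 2)) := by
          rw [Real.mul_rpow (by positivity) hA0, ← Real.rpow_mul (by positivity), ← hs, hsβ,
            Real.div_rpow (by norm_num) hLam0.le]
          field_simp
        rw [e1]
        gcongr
        exact le_add_self
      · set D : ℝ := 2 ^ j / Lam with hD
        have hD0 : 0 < D := by positivity
        have e2 : (2 : ℝ) ^ (j + 1) / Lam = 2 * D := by rw [hD, pow_succ]; ring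
        have hgs' : ∀ x, g x ≠ 0 → D ≤ hor x ∧ hor x ≤ 2 * D := by
          intro x hx
          have h5 := hgs x hx
          unfold RR at h5
          rw [if_neg hj0, e2] at h5
          exact ⟨h5.1, h5.2.le⟩
        have hPF := PF_cut hn hgA (by positivity : 0 < 2 * D) (fun x hx => (hgs' x hx).2)
        have hjJ : j ≤ J := by
          have := Finset.mem_range.mp hj
          omega
        have h6 : (2 : ℝ) ^ j ≤ 24 * Lam := le_trans (pow_le_pow_right₀ (by norm_num) hjJ) hJ1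
        have hD64 : D ≤ 64 := by
          rw [hD, div_le_iff₀ hLam0]
          nlinarith
        have hLD : 1 ≤ Lam * D := by
          rw [hD, mul_div_cancel₀ _ hLam0.ne']
          exact one_le_pow₀ (by norm_num)
        have hFs : ∀ y, FF n g y ≠ 0 → D ≤ y.1 ∧ y.1 ≤ 2 * D := by
          intro y hy
          have hy0 : 0 < y.1 := hPF.2.2.1 y hy
          unfold FF at hy
          rw [if_pos hy0] at hy
          have h7 := hgs' _ (right_ne_zero_of_mul hy)
          rw [hor_pt hn hy0.le] at h7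
          exact h7
        have h4 := hC1 lam Lam _ D (FF n g) hlam hLam hLL hLD hD64 hPF hFs
        refine h4.trans ?_
        have e1 : lam ^ (η / 2) * D ^ (-β) * ((2 * D) ^ (((n : ℝ) - 1) / 2) * A) ^ (p - 2) =
            lam ^ (η / 2) * (2 ^ β * A ^ (p - 2)) := by
          rw [Real.mul_rpow (by positivity) hA0, ← Real.rpow_mul (by positivity), ← hs, hsβ,
            Real.mul_rpow (by norm_num) hD0.le, Real.rpow_neg hD0.le]
          field_simp
        rw [e1]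
        gcongr
        exact le_self_add
    have hmeas : ∀ j, Measurable fun q : ℝ × EE (n + 1) =>
        ‖MM (Pool.Agent.H14.LS.mj n lam Lam q.1) (cutR (RR Lam j) f) q.2‖ₑ ^ p := by
      intro j
      exact (Pool.Agent.H14.LS.MM_meas (Pool.Agent.H14.LS.mj_meas n lam Lam)
        (Pool.Agent.H14.LS.fourier_meas' (Pool.Agent.H14.LS.bcd_int
          (cut_bcd (RR_meas Lam j) hA)))).enorm.pow_const _
    have hsum : ∀ t x, ‖MM (Pool.Agent.H14.LS.mj n lam Lam t) f x‖ₑ ^ p ≤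
        ((J + 1 : ℕ) : ℝ≥0∞) ^ p * ∑ j ∈ Finset.range (J + 1),
          ‖MM (Pool.Agent.H14.LS.mj n lam Lam t) (cutR (RR Lam j) f) x‖ₑ ^ p := by
      intro t x
      rw [MM_sum hlam0 t hA (J + 1) (RR Lam) (RR_meas Lam) hdec x]
      exact (ENNReal.rpow_le_rpow (enorm_sum_le _ _) hp0).trans
        (Pool.Agent.H14.LS.fin_sum_pow (by linarith) (J + 1) _)
    have hNt : ((J + 1 : ℕ) : ℝ≥0∞) ^ p ≠ ⊤ :=
      ENNReal.rpow_ne_top_of_nonneg hp0 (ENNReal.natCast_ne_top _)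
    change ∫⁻ t in Icc (1 : ℝ) 2, ∫⁻ x, ‖MM (Pool.Agent.H14.LS.mj n lam Lam t) f x‖ₑ ^ p ≤ _
    calc ∫⁻ t in Icc (1 : ℝ) 2, ∫⁻ x, ‖MM (Pool.Agent.H14.LS.mj n lam Lam t) f x‖ₑ ^ p
        ≤ ∫⁻ t in Icc (1 : ℝ) 2, ∫⁻ x, ((J + 1 : ℕ) : ℝ≥0∞) ^ p * ∑ j ∈ Finset.range (J + 1),
          ‖MM (Pool.Agent.H14.LS.mj n lam Lam t) (cutR (RR Lam j) f) x‖ₑ ^ p :=
          lintegral_mono fun t => lintegral_mono fun x => hsum t x
      _ = ((J + 1 : ℕ) : ℝ≥0∞) ^ p * ∑ j ∈ Finset.range (J + 1),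
          ∫⁻ t in Icc (1 : ℝ) 2, ∫⁻ x,
            ‖MM (Pool.Agent.H14.LS.mj n lam Lam t) (cutR (RR Lam j) f) x‖ₑ ^ p := by
          exact int_sum (fun j t x =>
            ‖MM (Pool.Agent.H14.LS.mj n lam Lam t) (cutR (RR Lam j) f) x‖ₑ ^ p) hmeas
            (J + 1) _ hNt
      _ ≤ ((J + 1 : ℕ) : ℝ≥0∞) ^ p * ∑ j ∈ Finset.range (J + 1),
          (K * ((C1 + C2) * ENNReal.ofReal (lam ^ (η / 2) * (2 ^ β * A ^ (p - 2))) *
            (K2 * ∫⁻ x, ‖f x‖ₑ ^ 2))) := by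
          gcongr with j hj
          exact one j hj
      _ = (((J + 1 : ℕ) : ℝ≥0∞) ^ p * ((J + 1 : ℕ) : ℝ≥0∞)) *
          (K * ((C1 + C2) * ENNReal.ofReal (lam ^ (η / 2) * (2 ^ β * A ^ (p - 2))) *
            (K2 * ∫⁻ x, ‖f x‖ₑ ^ 2))) := by
          rw [Finset.sum_const, Finset.card_range, nsmul_eq_mul]
          ring
      _ ≤ ((Cc * Real.toNNReal (48 ^ (η / 2)) : ℝ≥0) * ENNReal.ofReal (lam ^ (η / 2))) *
          (K * ((C1 + C2) * ENNReal.ofReal (lam ^ (η / 2) * (2 ^ β * A ^ (p - 2))) *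
            (K2 * ∫⁻ x, ‖f x‖ₑ ^ 2))) := by
          refine mul_le_mul_left ?_ _
          have h9 : ((J + 1 : ℕ) : ℝ≥0∞) ^ p * ((J + 1 : ℕ) : ℝ≥0∞) =
              ENNReal.ofReal (((J : ℝ) + 1) ^ (p + 1)) := by
            have h10 : ((J + 1 : ℕ) : ℝ≥0∞) = ENNReal.ofReal ((J : ℝ) + 1) := by
              rw [← ENNReal.ofReal_natCast]
              push_cast
              rfl
            rw [h10, ENNReal.ofReal_rpow_of_pos (by positivity), ← ENNReal.ofReal_mul (by positivity),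
              Real.rpow_add_one (by positivity)]
          rw [h9]
          have h11 : ((Cc * Real.toNNReal (48 ^ (η / 2)) : ℝ≥0) : ℝ≥0∞) * ENNReal.ofReal (lam ^ (η / 2)) =
              ENNReal.ofReal ((Cc : ℝ) * (48 ^ (η / 2) * lam ^ (η / 2))) := by
            rw [ENNReal.ofReal_mul (by positivity), ENNReal.ofReal_mul (by positivity),
              ENNReal.ofReal_coe_nnreal]
            push_cast
            rw [mul_assoc]
            rfl
          rw [h11]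
          exact ENNReal.ofReal_le_ofReal hJc
      _ = ((Cc * Real.toNNReal (48 ^ (η / 2))) * (K * (C1 + C2) * b2 * K2) : ℝ≥0) *
          ENNReal.ofReal (lam ^ η * A ^ (p - 2)) * ∫⁻ x, ‖f x‖ₑ ^ 2 := by
          have h12 : ENNReal.ofReal (lam ^ η * A ^ (p - 2)) =
              ENNReal.ofReal (lam ^ (η / 2)) * (ENNReal.ofReal (lam ^ (η / 2)) *
                ENNReal.ofReal (A ^ (p - 2))) := by
            rw [← ENNReal.ofReal_mul (by positivity), ← ENNReal.ofReal_mul (by positivity)]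
            congr 1
            rw [← mul_assoc, ← Real.rpow_add hlam0]
            congr 2
            ring
          rw [h12, ENNReal.ofReal_mul (by positivity), ENNReal.ofReal_mul (by positivity), ← hb2']
          push_cast
          ring
      _ ≤ Ctot * ENNReal.ofReal (lam ^ η * A ^ (p - 2)) * ∫⁻ x, ‖f x‖ₑ ^ 2 := by
          exact mul_le_mul_left (mul_le_mul_left hCt2 _) _
  · -- away from the axis
    intro i hi hsupp
    have hi2 : (2 : ℝ) ≤ i := by exact_mod_cast hi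
    have hi0 : (0 : ℝ) < i := by linarith
    have hset : {x : EE (n + 1) | 8 * (i : ℝ) ≤ hor x ∧ hor x ≤ 8 * ((i : ℝ) + 1)} =
        {x : EE (n + 1) | hor x ∈ Icc (8 * (i : ℝ)) (8 * ((i : ℝ) + 1))} := rfl
    have h1 : ∀ t, ∫⁻ x in {x : EE (n + 1) | 8 * (i : ℝ) ≤ hor x ∧ hor x ≤ 8 * ((i : ℝ) + 1)},
        ‖MM (Pool.Agent.H14.LS.mj n lam Lam t) f x‖ₑ ^ p ≤
        K * (ENNReal.ofReal ((8 * (i : ℝ)) ^ (-β)) * ∫⁻ z : ℝ, ∫⁻ ρ in Ioi (0 : ℝ),
          ‖PU n lam Lam t (FF n f) (ρ, z)‖ₑ ^ p) := by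
      intro t
      rw [hset]
      refine (hK lam Lam t A f _ hlam0 hLam0 hf hA measurableSet_Icc).trans ?_
      gcongr
      rw [← lintegral_const_mul' _ _ ENNReal.ofReal_ne_top]
      apply lintegral_mono
      intro z
      simp only
      rw [← lintegral_const_mul' _ _ ENNReal.ofReal_ne_top]
      apply setLIntegral_mono' measurableSet_Ioi
      intro ρ hρ
      by_cases h2 : ρ ∈ Icc (8 * (i : ℝ)) (8 * ((i : ℝ) + 1))
      · rw [indicator_of_mem h2]
        simp only [Pi.one_apply, one_mul]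
        rw [mul_comm]
        refine mul_le_mul_left (ENNReal.ofReal_le_ofReal ?_) _
        rw [← hβ]
        exact Real.rpow_le_rpow_of_nonpos (by positivity) h2.1 (by linarith)
      · rw [indicator_of_notMem h2]
        simp
    have hPF := PF_cut hn hA (by positivity : 0 < 8 * ((i : ℝ) + 2)) (fun x hx => (hsupp x hx).2)
    have h4 := hC0 lam Lam _ (FF n f) hlam hLam0 hLL hPF
    change ∫⁻ t in Icc (1 : ℝ) 2, ∫⁻ x in {x : EE (n + 1) | 8 * (i : ℝ) ≤ hor x ∧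
      hor x ≤ 8 * ((i : ℝ) + 1)}, ‖MM (Pool.Agent.H14.LS.mj n lam Lam t) f x‖ₑ ^ p ≤ _
    calc ∫⁻ t in Icc (1 : ℝ) 2, ∫⁻ x in {x : EE (n + 1) | 8 * (i : ℝ) ≤ hor x ∧
          hor x ≤ 8 * ((i : ℝ) + 1)}, ‖MM (Pool.Agent.H14.LS.mj n lam Lam t) f x‖ₑ ^ p
        ≤ ∫⁻ t in Icc (1 : ℝ) 2, K * (ENNReal.ofReal ((8 * (i : ℝ)) ^ (-β)) *
          ∫⁻ z : ℝ, ∫⁻ ρ in Ioi (0 : ℝ), ‖PU n lam Lam t (FF n f) (ρ, z)‖ₑ ^ p) :=
          lintegral_mono h1
      _ = K * (ENNReal.ofReal ((8 * (i : ℝ)) ^ (-β)) * ∫⁻ t in Icc (1 : ℝ) 2,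
          ∫⁻ z : ℝ, ∫⁻ ρ in Ioi (0 : ℝ), ‖PU n lam Lam t (FF n f) (ρ, z)‖ₑ ^ p) := by
          rw [lintegral_const_mul' _ _ ENNReal.coe_ne_top,
            lintegral_const_mul' _ _ ENNReal.ofReal_ne_top]
      _ ≤ K * (ENNReal.ofReal ((8 * (i : ℝ)) ^ (-β)) * (C0 * ENNReal.ofReal (lam ^ η *
          ((8 * ((i : ℝ) + 2)) ^ (((n : ℝ) - 1) / 2) * A) ^ (p - 2)) *
          (K2 * ∫⁻ x, ‖f x‖ₑ ^ 2))) := by
          gcongr
          refine h4.trans ?_
          gcongr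
          exact hK2 A f hf hA
      _ ≤ (K * C0 * b2 * K2 : ℝ≥0) * ENNReal.ofReal (lam ^ η * A ^ (p - 2)) *
          ∫⁻ x, ‖f x‖ₑ ^ 2 := by
          have h5 : ENNReal.ofReal ((8 * (i : ℝ)) ^ (-β)) * ENNReal.ofReal (lam ^ η *
              ((8 * ((i : ℝ) + 2)) ^ (((n : ℝ) - 1) / 2) * A) ^ (p - 2)) ≤
              b2 * ENNReal.ofReal (lam ^ η * A ^ (p - 2)) := by
            rw [hb2', ← ENNReal.ofReal_mul (by positivity), ← ENNReal.ofReal_mul (by positivity)]
            apply ENNReal.ofReal_le_ofReal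
            rw [Real.mul_rpow (by positivity) hA0, ← Real.rpow_mul (by positivity), ← hs, hsβ,
              Real.rpow_neg (by positivity)]
            have h6 : (8 * ((i : ℝ) + 2)) ^ β ≤ 2 ^ β * (8 * (i : ℝ)) ^ β := by
              rw [← Real.mul_rpow (by norm_num) (by positivity)]
              apply Real.rpow_le_rpow (by positivity) _ hβ0
              linarith
            have h7 : ((8 * (i : ℝ)) ^ β)⁻¹ * (8 * ((i : ℝ) + 2)) ^ β ≤ 2 ^ β := by
              rw [inv_mul_eq_div, div_le_iff₀ (by positivity)]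
              exact h6
            calc ((8 * (i : ℝ)) ^ β)⁻¹ * (lam ^ η * ((8 * ((i : ℝ) + 2)) ^ β * A ^ (p - 2)))
                = (((8 * (i : ℝ)) ^ β)⁻¹ * (8 * ((i : ℝ) + 2)) ^ β) * (lam ^ η * A ^ (p - 2)) := by
                  ring
              _ ≤ 2 ^ β * (lam ^ η * A ^ (p - 2)) :=
                  mul_le_mul_of_nonneg_right h7 (by positivity)
          calc (K : ℝ≥0∞) * (ENNReal.ofReal ((8 * (i : ℝ)) ^ (-β)) * (C0 * ENNReal.ofReal (lam ^ η *
              ((8 * ((i : ℝ) + 2)) ^ (((n : ℝ) - 1) / 2) * A) ^ (p - 2)) *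
              (K2 * ∫⁻ x, ‖f x‖ₑ ^ 2)))
              = (K * C0 * K2) * (ENNReal.ofReal ((8 * (i : ℝ)) ^ (-β)) * ENNReal.ofReal (lam ^ η *
              ((8 * ((i : ℝ) + 2)) ^ (((n : ℝ) - 1) / 2) * A) ^ (p - 2))) *
              ∫⁻ x, ‖f x‖ₑ ^ 2 := by ring
            _ ≤ (K * C0 * K2) * (b2 * ENNReal.ofReal (lam ^ η * A ^ (p - 2))) *
              ∫⁻ x, ‖f x‖ₑ ^ 2 := by gcongr
            _ = _ := by push_cast; ring
      _ ≤ Ctot * ENNReal.ofReal (lam ^ η * A ^ (p - 2)) * ∫⁻ x, ‖f x‖ₑ ^ 2 := by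
          exact mul_le_mul_left (mul_le_mul_left hCt1 _) _

end Pool.Agent.H83.LS.PIEm
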