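import Pool.Agent.H83.LS.Chain1
import Pool.Agent.H83.LS.WA
import Pool.Agent.H83.LS.HIGHG
import Pool.Agent.H83.LS.PIECE
import Pool.Agent.H14.LS.Highf
import Pool.Agent.H14.LS.Main3
import Pool.Agent.H19.LS.PLE
import Pool.Agent.H19.LS.MARC
import Pool.Agent.H19.LS.PC2
import Pool.Agent.H19.LS.STRONG
import Pool.Agent.H20.LS.KERN
import Pool.Agent.H27.LS.LOWX
import Pool.Agent.H27.LS.PC0
import Pool.Agent.H27.LS.RED2
import Pool.Agent.H27.LS.WRED
import Pool.Agent.H54.LS.AVG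
import Pool.Agent.H54.LS.GA
import Pool.Agent.H47.LS.S2D
import Pool.Agent.H57.LS.GB
import Pool.Agent.H57.LS.PC1
import Pool.Agent.H57.LS.RED1
import Pool.Agent.H58.LS.KAP
import Pool.Agent.H58.LS.KBV
import Pool.Agent.H73.LS.FING
import Pool.Agent.H76.LS.ASY
import Pool.Agent.H76.LS.RADL
import Pool.Agent.H76.LS.RF
import Pool.Agent.H85.LS.INVA
import Pool.Agent.H87.LS.SPL
import Pool.Agent.H89.LS.BLK
import Pool.Agent.H90.LS.KL1
import Pool.Agent.H94.LS.LOWF

/-!
Local smoothing: the modules of waves 3 and 4 put together.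
-/

set_option autoImplicit false

namespace Pool.Agent.H83.LS.Chain

open Pool.Agent.H83.LS

theorem spl : T_SPL := Pool.Agent.H87.LS.spl_proof
theorem rf : T_RF := Pool.Agent.H76.LS.R.rf spl
theorem pol : T_POL := Pool.Agent.H87.LS.pol_proof spl rf
theorem asy : T_ASY := Pool.Agent.H76.LS.asy
theorem kap : T_KAP := Pool.Agent.H58.LS.kap asy
theorem radl : T_RADL := Pool.Agent.H76.LS.Q.radl rf kap
theorem kbv : T_KBV := Pool.Agent.H58.LS.kbv
theorem lowx : T_LOWX := Pool.Agent.H83.LS.H27.lowx kbv spl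
theorem ple : T_PLE := Pool.Agent.H19.LS.PLE_proof
theorem red1 : T_RED1 := Pool.Agent.H57.LS.red1 spl rf
theorem gb : T_GB := Pool.Agent.H57.LS.gb kap yg
theorem red2 : T_RED2 := Pool.Agent.H83.LS.H27.red2 kap gb
theorem wred : T_WRED := Pool.Agent.H83.LS.H27.wred
theorem kl1 : T_KL1 := Pool.Agent.H90.LS.kl1 lor conv cut tcu kb sec1
theorem marc : T_MARC := Pool.Agent.H19.LS.MARC_proof
theorem lowf : T_LOWF := Pool.Agent.H94.LS.lowf kbv
theorem rotm : T_ROT := Pool.Agent.H85.LS.rotm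
theorem avg : T_AVG := Pool.Agent.H54.LS.avg
theorem ang : T_ANG := Pool.Agent.H85.LS.ang
theorem inva : T_INVA := Pool.Agent.H85.LS.inva
theorem kern : T_KERN := Pool.Agent.H20.LS.kern

theorem ga : T_GA := Pool.Agent.H54.LS.GA.ga kern
theorem s2d : T_S2D := Pool.Agent.H47.LS.s2d slw trace kb plb

theorem pc0 : T_PC0 := Pool.Agent.H83.LS.H27.pc0 red2 gb s2d wred kap
theorem pc2 : T_PC2 := Pool.Agent.H19.LS.PC2_proof red2 gb s2d wred kap
theorem pc1 : T_PC1 := Pool.Agent.H57.LS.pc1 red2 gb s2d wred kap kl1 yg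
theorem piece : T_PIECE := PIEm.piece pc0 pc1 pc2 red1 pol
theorem main : T_MAIN := Pool.Agent.H14.LS.main piece lowx radl ple yg
theorem strong : T_STRONG := Pool.Agent.H19.LS.STRONG_proof main marc radl ple
theorem highf : T_HIGHF := Pool.Agent.H14.LS.highf strong radl yg
theorem fin : T_FIN := Pool.Agent.H73.LS.fin highf lowf yg ple
theorem wae : T_WAe := WAm.wae ga ang strong
theorem blke : T_BLKe := Pool.Agent.H89.LS.blke wae kern inva lowx yg ple ang rotm
theorem highge : T_HIGHGe := HG.highge blke radl yg rotm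
theorem finge : T_FINGe := Pool.Agent.H73.LS.finge highge lowf yg ple

end Pool.Agent.H83.LS.Chain
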