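import Pool.Agent.H2.LS.CAPT
import Pool.Agent.H2.LS.LINF
import Pool.Agent.H2.LS.SEC1
import Pool.Agent.H2.LS.SECK
import Pool.Agent.H2.LS.CAPK
import Pool.Agent.H14.LS.CUT
import Pool.Agent.H14.LS.KB
import Pool.Agent.H19.LS.TL
import Pool.Agent.H19.LS.TRACE
import Pool.Agent.H19.LS.PLB
import Pool.Agent.H19.LS.YG
import Pool.Agent.H33.LS.CORTH
import Pool.Agent.H33.LS.LE
import Pool.Agent.H33.LS.ORTH
import Pool.Agent.H33.LS.REVC
import Pool.Agent.H57.LS.LEC
import Pool.Agent.H62.LS.LOR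
import Pool.Agent.H62.LS.LORV
import Pool.Agent.H62.LS.SBASE
import Pool.Agent.H62.LS.STEP
import Pool.Agent.H65.LS.BROAD
import Pool.Agent.H65.LS.SUPB
import Pool.Agent.H65.LS.TLK
import Pool.Agent.H67.LS.DET
import Pool.Agent.H67.LS.LW
import Pool.Agent.H67.LS.MK
import Pool.Agent.H85.LS.SLW
import Pool.Agent.H89.LS.IND
import Pool.Agent.H90.LS.BASE
import Pool.Agent.H90.LS.BN

/-!
Local smoothing: the modules of waves 1 and 2 put together (up to `T_SLW` and `T_TRACE`).
-/

set_option autoImplicit false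

namespace Pool.Agent.H83.LS.Chain

open Pool.Agent.H83.LS

theorem pl : T_PL := Pool.Agent.H19.LS.PL_proof
theorem yg : T_YG := Pool.Agent.H19.LS.YG_proof
theorem conv : T_CONV := Pool.Agent.H19.LS.CONV_proof
theorem plb : T_PLB := Pool.Agent.H19.LS.PLB_proof
theorem trace : T_TRACE := Pool.Agent.H19.LS.TRACE_proof
theorem kb : T_KB := Pool.Agent.H14.LS.kb
theorem dec : T_DEC := Pool.Agent.H14.LS.dec kb
theorem tcu : T_TCU := Pool.Agent.H14.LS.tcu
theorem cut : T_CUT := Pool.Agent.H14.LS.cut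
theorem orth : T_ORTH := Pool.Agent.H33.LS.ORTH.orth plb
theorem le' : T_LE := Pool.Agent.H33.LS.LE.leW plb conv dec yg
theorem seck : T_SECK := Pool.Agent.H2.LS.seck_proof kb
theorem sec1 : T_SEC1 := Pool.Agent.H2.LS.sec1_proof seck
theorem capk : T_CAPK := Pool.Agent.H2.LS.CK.capk_proof kb
theorem capt : T_CAPT := Pool.Agent.H2.LS.capt_proof capk conv yg tcu cut
theorem revc : T_REVC := Pool.Agent.H33.LS.REVC.revc le' dec cut tcu
theorem corth : T_CORTH := Pool.Agent.H33.LS.CORTH.corth orth cut tcu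
theorem lw : T_LW := Pool.Agent.H67.LS.lw
theorem det : T_DET := Pool.Agent.H67.LS.det
theorem mk : T_MK := Pool.Agent.H67.LS.mk
theorem base : T_BASE := Pool.Agent.H90.LS.base kb conv cut tcu
theorem ind : T_IND := Pool.Agent.H89.LS.ind mk det corth capt revc cut
theorem tl : T_TL := Pool.Agent.H19.LS.TL_proof ind base
theorem tlk : T_TLK := Pool.Agent.H65.LS.tlk tl le' dec cut tcu
theorem lec : T_LEC := Pool.Agent.H57.LS.lec le' sec1 cut tcu
theorem linf : T_LINF := Pool.Agent.H2.LS.linf_proof sec1 conv cut tcu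
theorem supb : T_SUPB := Pool.Agent.H65.LS.supb lec le' orth sec1 conv cut tcu det
theorem broad : T_BROAD := Pool.Agent.H65.LS.broad tlk supb lec
theorem bn : T_BN := Pool.Agent.H90.LS.bn
theorem lor : T_LOR := Pool.Agent.H62.LS.lorT
theorem lorv : T_LORV := Pool.Agent.H62.LS.lorv
theorem step : T_STEP := Pool.Agent.H62.LS.step bn broad sec1 conv cut
theorem sbase : T_SBASE := Pool.Agent.H62.LS.sbase linf
theorem slw : T_SLW := Pool.Agent.H85.LS.slw step sbase

end Pool.Agent.H83.LS.Chain
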