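import Pool.Agent.H83.LS.Stmt

set_option autoImplicit false

namespace Pool.Agent.H83.LS.OldRegularity

open SchwartzMap Pool.Agent.H83.LS
open scoped NNReal

/-- Local smoothing for the wave equation in every dimension `d = n + 1 ≥ 3`, for every
`p ≥ p_d = 2d/(d-1)` and every `σ < 1/p` (here `s_p = n/2 - n/p`), for all Schwartz data, with the
conjectured norms of the data and of at most `3n + 5` derivatives of the data along the rotations
about the last coordinate axis on the right side. -/
theorem result (n : ℕ) (hn : 2 ≤ n) (p σ : ℝ) (hp : 2 * ((n : ℝ) + 1) / n ≤ p)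
    (hσ : σ < 1 / p) :
    ∃ C : ℝ≥0, ∀ u₀ u₁ : 𝓢(EE (n + 1), ℂ), solNorm p u₀ u₁ ≤
      C * ⨆ w : {w : List (Fin n × Fin n) // w.length ≤ 3 * n + 5},
        (sobNorm p (n / 2 - n / p - σ) (rotW w.1 u₀) +
          sobNorm p (n / 2 - n / p - 1 - σ) (rotW w.1 u₁)) := by
  obtain ⟨C, -, h⟩ := main_thm n hn p σ hp hσ
  exact ⟨C, h⟩

end Pool.Agent.H83.LS.OldRegularity
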