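import Pool.Agent.H83.LS.Chain2

/-!
Named quantities for the final statement.
-/

set_option autoImplicit false

namespace Pool.Agent.H83.LS

open MeasureTheory Set SchwartzMap
open scoped NNReal ENNReal

/-- `(∫_1^2 ‖u(·,t)‖_p^p dt)^(1/p)` for the solution `u(·,t) = cos(t√-Δ)u₀ + sin(t√-Δ)/√-Δ u₁` of
the wave equation -/
noncomputable def solNorm {d : ℕ} (p : ℝ) (u₀ u₁ : EE d → ℂ) : ℝ≥0∞ :=
  (∫⁻ t in Icc (1 : ℝ) 2, eLpNorm (fun x => cosS u₀ t x + sinS u₁ t x) (ENNReal.ofReal p)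
    volume ^ p) ^ (1 / p)

/-- the norm of `L^p_s`: `‖(I-Δ)^{s/2} f‖_p` -/
noncomputable def sobNorm {d : ℕ} (p s : ℝ) (f : EE d → ℂ) : ℝ≥0∞ :=
  eLpNorm (besS s f) (ENNReal.ofReal p) volume

/-- the main theorem -/
theorem main_thm (n : ℕ) (hn : 2 ≤ n) (p σ : ℝ) (hp : 2 * ((n : ℝ) + 1) / n ≤ p)
    (hσ : σ < 1 / p) :
    ∃ C : ℝ≥0,
      (∀ u₀ u₁ : 𝓢(EE (n + 1), ℂ), Axial (u₀ : EE (n + 1) → ℂ) → Axial (u₁ : EE (n + 1) → ℂ) →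
        solNorm p u₀ u₁ ≤
          C * (sobNorm p ((n : ℝ) / 2 - n / p - σ) u₀ + sobNorm p ((n : ℝ) / 2 - n / p - 1 - σ) u₁)) ∧
      (∀ u₀ u₁ : 𝓢(EE (n + 1), ℂ),
        solNorm p u₀ u₁ ≤ C * ⨆ w : {w : List (Fin n × Fin n) // w.length ≤ 3 * n + 5},
          (sobNorm p ((n : ℝ) / 2 - n / p - σ) (rotW w.1 u₀) +
            sobNorm p ((n : ℝ) / 2 - n / p - 1 - σ) (rotW w.1 u₁))) := by
  have hn0 : (0 : ℝ) < n := by
    have : 0 < n := by omega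
    exact_mod_cast this
  have hp' : 2 + 2 / (n : ℝ) ≤ p := by
    have h1 : 2 * ((n : ℝ) + 1) / n = 2 + 2 / (n : ℝ) := by field_simp
    rw [h1] at hp
    exact hp
  obtain ⟨C₁, h₁⟩ := Chain.fin n p σ hn hp' hσ
  obtain ⟨C₂, h₂⟩ := Chain.finge n p σ hn hp' hσ
  refine ⟨max C₁ C₂, fun u₀ u₁ a₀ a₁ => ?_, fun u₀ u₁ => ?_⟩
  · refine (h₁ u₀ u₁ a₀ a₁).trans ?_
    unfold sobNorm
    gcongr
    exact le_max_left _ _
  · refine (h₂ u₀ u₁ _ (fun w hw => le_iSup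
      (fun w : {w : List (Fin n × Fin n) // w.length ≤ 3 * n + 5} =>
      sobNorm p ((n : ℝ) / 2 - n / p - σ) (rotW w.1 u₀) +
      sobNorm p ((n : ℝ) / 2 - n / p - 1 - σ) (rotW w.1 u₁))
      ⟨w, hw⟩)).trans ?_
    gcongr
    exact le_max_right _ _

end Pool.Agent.H83.LS
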